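import Pool.Agent.N903.EL.Tail

/-!
# The characteristic function of the boundary values
-/

set_option autoImplicit false
set_option linter.unusedSectionVars false

namespace Pool.Agent.N903.EL

open Finset Filter Topology MeasureTheory Pool.Agent.W350.Edge Pool.Agent.N903.ED
open scoped ENNReal ComplexConjugate

section
variable (c : ℕ → ℂ) (D : ℝ) (r : ℕ → ℂ → ℂ) (ρ : ℕ → ℝ)

/-- The local function at `p`. -/
noncomputable def gp (p : ℕ) (x : ℂ) : ℂ := (if p.Prime then c p / p * x else 0) + r p x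

/-- The boundary value. -/
noncomputable def bv (τ : ℝ) : ℂ := lm c τ + ∑' p, r p (ph p τ)

/-- The truncated sum. -/
noncomputable def ts (N : ℕ) (τ : ℝ) : ℂ := ∑ p ∈ range N, gp c r p (ph p τ)

lemma ts_eq (N : ℕ) (τ : ℝ) : ts c r N τ = ps c τ N + ∑ p ∈ range N, r p (ph p τ) := by
  unfold ts ps gp
  rw [← sum_add_distrib]
  refine sum_congr rfl fun p _ => ?_
  congr 1

variable (hc : ∀ p, ‖c p‖ ≤ D) (hρ : Summable ρ) (hr : ∀ p x, ‖x‖ = 1 → ‖r p x‖ ≤ ρ p)
  (hrc : ∀ p, ContinuousOn (r p) (Metric.sphere 0 1)) (hr0 : ∀ p, ¬ p.Prime → ∀ x, r p x = 0)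

include hrc in
lemma continuous_rp (p : ℕ) : Continuous fun τ => r p (ph p τ) := by
  refine (hrc p).comp_continuous (continuous_ph p) fun τ => ?_
  rw [mem_sphere_zero_iff_norm, norm_ph]

include hrc in
lemma continuous_gp (p : ℕ) : ContinuousOn (gp c r p) (Metric.sphere 0 1) := by
  unfold gp
  refine ContinuousOn.add ?_ (hrc p)
  split_ifs
  · fun_prop
  · exact continuousOn_const

include hρ hr in
lemma summable_rp (τ : ℝ) : Summable fun p => r p (ph p τ) :=
  Summable.of_norm_bounded hρ fun p => hr p _ (norm_ph p τ)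

include hρ hr hrc in
lemma continuous_tsum_rp : Continuous fun τ => ∑' p, r p (ph p τ) :=
  continuous_tsum (continuous_rp r hrc) hρ fun p τ => hr p _ (norm_ph p τ)

include hc in
lemma aem_lm : AEMeasurable (lm c) := by
  have hnull : volume (divSet c) = 0 := by
    have h1 := exc_null (n := 1) (fun _ => c) D (fun _ p => hc p) (fun _ => 0)
    refine measure_mono_null (fun τ hτ => ?_) h1
    exact Set.mem_iUnion.2 ⟨0, by simpa using hτ⟩
  refine aemeasurable_of_tendsto_metrizable_ae' (f := fun N τ => ps c τ N) (fun N => ?_) ?_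
  · have : Continuous fun τ => ps c τ N := by
      unfold ps
      exact continuous_finsetSum _ fun p _ => continuous_term c p
    exact this.measurable.aemeasurable
  · have h2 : ∀ᵐ τ : ℝ, τ ∉ divSet c := measure_eq_zero_iff_ae_notMem.1 hnull
    filter_upwards [h2] with τ hτ
    exact lm_spec hτ

include hc hρ hr hrc in
lemma aem_bv : AEMeasurable (bv c r) :=
  (aem_lm c D hc).add (continuous_tsum_rp r ρ hρ hr hrc).measurable.aemeasurable

include hrc in
lemma continuous_ts (N : ℕ) : Continuous (ts c r N) := by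
  unfold ts
  refine continuous_finsetSum _ fun p _ => ?_
  refine (continuous_gp c r hrc p).comp_continuous (continuous_ph p) fun τ => ?_
  rw [mem_sphere_zero_iff_norm, norm_ph]

/-- The character. -/
noncomputable def ch (t w : ℂ) : ℂ := Complex.exp ((inner ℝ w t : ℝ) * Complex.I)

lemma ch_eq (t w : ℂ) : ch t w = Complex.exp (((conj t * w).re : ℝ) * Complex.I) := by
  unfold ch
  congr 3
  rw [Complex.inner, ← Complex.conj_re, map_mul, Complex.conj_conj, mul_comm]

lemma norm_ch (t w : ℂ) : ‖ch t w‖ = 1 := by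
  unfold ch
  exact Complex.norm_exp_ofReal_mul_I _

lemma continuous_ch (t : ℂ) : Continuous (ch t) := by
  unfold ch
  fun_prop

lemma ch_add (t w z : ℂ) : ch t (w + z) = ch t w * ch t z := by
  unfold ch
  rw [← Complex.exp_add, inner_add_left]
  congr 1
  push_cast
  ring

lemma ch_zero (t : ℂ) : ch t 0 = 1 := by
  unfold ch
  rw [inner_zero_left]
  simp

lemma ch_sum (t : ℂ) (s : Finset ℕ) (f : ℕ → ℂ) : ch t (∑ p ∈ s, f p) = ∏ p ∈ s, ch t (f p) := by
  classical
  induction s using Finset.induction_on with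
  | empty => simp [ch_zero]
  | insert a s ha ih => rw [sum_insert ha, prod_insert ha, ch_add, ih]

lemma exp_diff (x y : ℝ) :
    ‖Complex.exp ((x : ℝ) * Complex.I) - Complex.exp ((y : ℝ) * Complex.I)‖ ≤ |x - y| := by
  have h1 : Complex.exp ((x : ℝ) * Complex.I) - Complex.exp ((y : ℝ) * Complex.I) =
      Complex.exp ((y : ℝ) * Complex.I) * (Complex.exp (Complex.I * ((x - y : ℝ) : ℂ)) - 1) := by
    rw [mul_sub, mul_one, ← Complex.exp_add]
    congr 2
    push_cast
    ring
  rw [h1, norm_mul, Complex.norm_exp_ofReal_mul_I, one_mul]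
  exact Real.norm_exp_I_mul_ofReal_sub_one_le

lemma ch_lip (t w z : ℂ) : ‖ch t w - ch t z‖ ≤ ‖t‖ * ‖w - z‖ := by
  unfold ch
  refine (exp_diff _ _).trans ?_
  rw [← inner_sub_left, mul_comm]
  exact abs_real_inner_le_norm _ _

/-- The local characteristic function. -/
noncomputable def lc (p : ℕ) (t : ℂ) : ℂ := cmean fun θ => ch t (gp c r p (ee 1 θ))

/-- The characteristic function of the truncated sum. -/
noncomputable def af (N : ℕ) (t : ℂ) : ℂ := ∏ p ∈ (range N).filter Nat.Prime, lc c r p t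

lemma norm_cmean_le (h : ℝ → ℂ) (hh : ∀ θ, ‖h θ‖ ≤ 1) : ‖cmean h‖ ≤ 1 := by
  unfold cmean
  rw [norm_smul, norm_inv, Real.norm_of_nonneg two_pi_pos'.le]
  have h1 := intervalIntegral.norm_integral_le_of_norm_le_const (a := 0) (b := 2 * Real.pi)
    (C := 1) (f := h) fun τ _ => hh τ
  rw [sub_zero, abs_of_pos two_pi_pos', one_mul] at h1
  rw [inv_mul_le_iff₀ two_pi_pos', mul_one]
  exact h1

lemma norm_lc_le (p : ℕ) (t : ℂ) : ‖lc c r p t‖ ≤ 1 :=
  norm_cmean_le _ fun θ => (norm_ch t _).le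

include hrc hr0 in
/-- The mean of the character of the truncated sum. -/
lemma mean_ts (N : ℕ) (t : ℂ) :
    Tendsto (mn fun τ => ch t (ts c r N τ)) UW (𝓝 (af c r N t)) := by
  have h1 := prime_mean ((range N).filter Nat.Prime) (fun p hp => (mem_filter.1 hp).2)
    (fun p x => ch t (gp c r p x))
    (fun p _ => (continuous_ch t).comp_continuousOn (continuous_gp c r hrc p))
  refine h1.congr fun q => ?_
  congr 1
  funext τ
  unfold ts
  rw [ch_sum, prod_filter]
  refine prod_congr rfl fun p _ => ?_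
  split_ifs with hp
  · rfl
  · unfold gp
    rw [if_neg hp, hr0 p hp, add_zero, ch_zero]

lemma mn_congr_ae {E : Type*} [NormedAddCommGroup E] [NormedSpace ℝ E] (f g : ℝ → E)
    (h : ∀ᵐ τ : ℝ, f τ = g τ) (q : ℝ × ℝ) : mn f q = mn g q := by
  unfold mn
  rw [intervalIntegral.integral_congr_ae (h.mono fun τ hτ _ => hτ)]

include hc hρ hr hrc in
/-- The truncation error, uniformly in all windows. -/
lemma trunc (hD : 0 ≤ D) (ε : ℝ) (hε : 0 < ε) :
    ∃ J₀ : ℕ, ∀ J, J₀ ≤ J → ∀ t : ℂ, ∀ q : ℝ × ℝ, 1 ≤ q.2 →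
      ‖mn (fun τ => ch t (bv c r τ)) q - mn (fun τ => ch t (ts c r (NN 3 J) τ)) q‖ ≤
        ε * (1 + ‖t‖) := by
  obtain ⟨J₁, hJ₁⟩ := tail_window D hD (ε / 2) (ε / 2) (by positivity) (by positivity)
  have htail : Tendsto (fun N => ∑' p, ρ (p + N)) atTop (𝓝 0) := tendsto_sum_nat_add ρ
  have h2 : Tendsto (fun J => ∑' p, ρ (p + NN 3 J)) atTop (𝓝 0) := htail.comp (tendsto_NN 3)
  obtain ⟨J₂, hJ₂⟩ := eventually_atTop.1 (h2.eventually (gt_mem_nhds (by positivity : 0 < ε / 2)))
  refine ⟨max J₁ J₂, fun J hJ t q hq => ?_⟩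
  have hJ1 := hJ₁ c hc J ((le_max_left _ _).trans hJ) q.2 hq q.1
  have hJ2 := hJ₂ J ((le_max_right _ _).trans hJ)
  set N := NN 3 J with hN
  set A : Set ℝ := {τ : ℝ | τ ∈ Set.Ioc q.1 (q.1 + q.2) ∧ τ ∉ divSet c ∧
        ε / 2 ≤ ‖lm c τ - ps c τ N‖} with hA
  set B := toMeasurable volume A with hB
  have hBm : MeasurableSet B := measurableSet_toMeasurable _ _
  have hBv : volume B ≤ ENNReal.ofReal (ε / 2 * q.2) := by
    rw [hB, measure_toMeasurable]
    exact hJ1
  have hq0 : 0 < q.2 := by linarith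
  set f : ℝ → ℂ := fun τ => ch t (bv c r τ) - ch t (ts c r N τ) with hf
  have hb1 : AEMeasurable fun τ => ch t (bv c r τ) :=
    (continuous_ch t).measurable.comp_aemeasurable (aem_bv c D r ρ hc hρ hr hrc)
  have hi1 : ∀ a b : ℝ, IntervalIntegrable (fun τ => ch t (bv c r τ)) volume a b := by
    intro a b
    rw [intervalIntegrable_iff]
    exact Measure.integrableOn_of_bounded (M := 1) (by simp) hb1.aestronglyMeasurable
      (Eventually.of_forall fun τ => (norm_ch t _).le)
  have hi2 : ∀ a b : ℝ, IntervalIntegrable (fun τ => ch t (ts c r N τ)) volume a b := fun a b =>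
    ((continuous_ch t).comp (continuous_ts c r hrc N)).intervalIntegrable _ _
  rw [← mn_sub _ _ hi1 hi2]
  unfold mn
  rw [norm_smul, norm_inv, Real.norm_of_nonneg hq0.le, inv_mul_le_iff₀ hq0]
  have hnull : volume (divSet c) = 0 := by
    have h1 := exc_null (n := 1) (fun _ => c) D (fun _ p => hc p) (fun _ => 0)
    refine measure_mono_null (fun τ hτ => ?_) h1
    exact Set.mem_iUnion.2 ⟨0, by simpa using hτ⟩
  have hae : ∀ᵐ τ : ℝ, τ ∉ divSet c := measure_eq_zero_iff_ae_notMem.1 hnull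
  have hbound : ∀ᵐ τ : ℝ, τ ∈ Set.Ioc q.1 (q.1 + q.2) →
      ‖ch t (bv c r τ) - ch t (ts c r N τ)‖ ≤ ‖t‖ * ε + B.indicator (fun _ => (2 : ℝ)) τ := by
    filter_upwards [hae] with τ hτ hτI
    by_cases hτB : τ ∈ B
    · rw [Set.indicator_of_mem hτB]
      have h3 : ‖ch t (bv c r τ) - ch t (ts c r N τ)‖ ≤ 2 := by
        refine (norm_sub_le _ _).trans ?_
        rw [norm_ch, norm_ch]
        norm_num
      have : 0 ≤ ‖t‖ * ε := by positivity
      linarith
    · rw [Set.indicator_of_notMem hτB, add_zero]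
      refine (ch_lip t _ _).trans (mul_le_mul_of_nonneg_left ?_ (norm_nonneg _))
      have h3 : ‖lm c τ - ps c τ N‖ < ε / 2 := by
        by_contra h
        push Not at h
        exact hτB (subset_toMeasurable volume A ⟨hτI, hτ, h⟩)
      have h4 : bv c r τ - ts c r N τ =
          (lm c τ - ps c τ N) + ∑' p, r (p + N) (ph (p + N) τ) := by
        rw [ts_eq]
        unfold bv
        have h5 := (summable_rp r ρ hρ hr τ).sum_add_tsum_nat_add N
        rw [← h5]
        ring
      have h5 : ‖∑' p, r (p + N) (ph (p + N) τ)‖ ≤ ∑' p, ρ (p + N) :=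
        tsum_of_norm_bounded ((summable_nat_add_iff N).2 hρ).hasSum
          fun p => hr _ _ (norm_ph _ τ)
      rw [h4]
      refine (norm_add_le _ _).trans ?_
      linarith
  rw [intervalIntegral.integral_of_le (by linarith)]
  have hind : Integrable (B.indicator fun _ => (2 : ℝ))
      (volume.restrict (Set.Ioc q.1 (q.1 + q.2))) := (integrable_const _).indicator hBm
  refine (norm_integral_le_integral_norm _).trans ?_
  refine (integral_mono_of_nonneg (g := fun τ => ‖t‖ * ε + B.indicator (fun _ => (2 : ℝ)) τ)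
    (Eventually.of_forall fun τ => norm_nonneg _)
    ((integrable_const _).add hind) ((ae_restrict_iff' measurableSet_Ioc).2 hbound)).trans ?_
  rw [integral_add (integrable_const _) hind, integral_indicator hBm]
  simp only [integral_const, smul_eq_mul]
  have h6 : (volume.restrict (Set.Ioc q.1 (q.1 + q.2))).real Set.univ = q.2 := by
    rw [measureReal_restrict_apply_univ, Real.volume_real_Ioc_of_le (by linarith)]
    ring
  have h7 : ((volume.restrict (Set.Ioc q.1 (q.1 + q.2))).restrict B).real Set.univ ≤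
      ε / 2 * q.2 := by
    rw [measureReal_restrict_apply_univ]
    have h8 : (volume.restrict (Set.Ioc q.1 (q.1 + q.2))) B ≤ ENNReal.ofReal (ε / 2 * q.2) :=
      (Measure.le_iff'.1 Measure.restrict_le_self B).trans hBv
    unfold Measure.real
    refine (ENNReal.toReal_mono ENNReal.ofReal_ne_top h8).trans (le_of_eq ?_)
    exact ENNReal.toReal_ofReal (by positivity)
  rw [h6]
  nlinarith

/-- Limits of functions approximated by constants. -/
lemma lim_of_approx {F : ℝ × ℝ → ℂ} {a : ℕ → ℂ} {S : ℕ → ℝ × ℝ → ℂ}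
    (hS : ∀ J, Tendsto (S J) UW (𝓝 (a J)))
    (h : ∀ ε : ℝ, 0 < ε → ∃ J₀, ∀ J, J₀ ≤ J → ∀ᶠ q in UW, ‖F q - S J q‖ ≤ ε) :
    ∃ L : ℂ, Tendsto F UW (𝓝 L) ∧ Tendsto a atTop (𝓝 L) := by
  have key : ∀ ε : ℝ, 0 < ε → ∃ J₀, ∀ J, J₀ ≤ J → ∀ᶠ q in UW, ‖F q - a J‖ ≤ ε := by
    intro ε hε
    obtain ⟨J₀, hJ₀⟩ := h (ε / 2) (by positivity)
    refine ⟨J₀, fun J hJ => ?_⟩
    filter_upwards [hJ₀ J hJ, (Metric.tendsto_nhds.1 (hS J)) (ε / 2) (by positivity)] with q h1 h2
    rw [dist_eq_norm] at h2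
    have : F q - a J = (F q - S J q) + (S J q - a J) := by ring
    rw [this]
    exact (norm_add_le _ _).trans (by linarith)
  have hC : CauchySeq a := by
    refine Metric.cauchySeq_iff'.2 fun ε hε => ?_
    obtain ⟨J₀, hJ₀⟩ := key (ε / 3) (by positivity)
    refine ⟨J₀, fun J hJ => ?_⟩
    obtain ⟨q, h1, h2⟩ := ((hJ₀ J hJ).and (hJ₀ J₀ le_rfl)).exists
    rw [dist_eq_norm]
    have : a J - a J₀ = (F q - a J₀) - (F q - a J) := by ring
    rw [this]
    exact (norm_sub_le _ _).trans_lt (by linarith)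
  obtain ⟨L, hL⟩ := cauchySeq_tendsto_of_complete hC
  refine ⟨L, ?_, hL⟩
  rw [Metric.tendsto_nhds]
  intro ε hε
  obtain ⟨J₀, hJ₀⟩ := key (ε / 3) (by positivity)
  obtain ⟨J, hJ1, hJ2⟩ := ((Metric.tendsto_nhds.1 hL (ε / 3) (by positivity)).and
    (eventually_ge_atTop J₀)).exists
  filter_upwards [hJ₀ J hJ2] with q hq
  rw [dist_eq_norm] at hJ1 ⊢
  have : F q - L = (F q - a J) + (a J - L) := by ring
  rw [this]
  exact (norm_add_le _ _).trans_lt (by linarith)

include hc hρ hr hrc hr0 in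
/-- **The characteristic function of the boundary values.** -/
theorem exists_phi (hD : 0 ≤ D) : ∃ φ : ℂ → ℂ,
    (∀ t, Tendsto (mn fun τ => ch t (bv c r τ)) UW (𝓝 (φ t))) ∧
    (∀ t, Tendsto (fun J => af c r (NN 3 J) t) atTop (𝓝 (φ t))) ∧ ContinuousAt φ 0 := by
  have h1 : ∀ t, ∃ L : ℂ, Tendsto (mn fun τ => ch t (bv c r τ)) UW (𝓝 L) ∧
      Tendsto (fun J => af c r (NN 3 J) t) atTop (𝓝 L) := by
    intro t
    refine lim_of_approx (S := fun J => mn fun τ => ch t (ts c r (NN 3 J) τ))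
      (fun J => mean_ts c r hrc hr0 (NN 3 J) t) fun ε hε => ?_
    obtain ⟨J₀, hJ₀⟩ := trunc c D r ρ hc hρ hr hrc hD (ε / (1 + ‖t‖)) (by positivity)
    refine ⟨J₀, fun J hJ => ?_⟩
    filter_upwards [tendsto_snd_UW.eventually_ge_atTop 1] with q hq
    have := hJ₀ J hJ t q hq
    rwa [div_mul_cancel₀ _ (by positivity)] at this
  choose φ hφ1 hφ2 using h1
  refine ⟨φ, hφ1, hφ2, ?_⟩
  -- uniform approximation
  have h2 : ∀ ε : ℝ, 0 < ε → ∃ J, ∀ t, ‖φ t - af c r (NN 3 J) t‖ ≤ ε * (1 + ‖t‖) := by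
    intro ε hε
    obtain ⟨J₀, hJ₀⟩ := trunc c D r ρ hc hρ hr hrc hD ε hε
    refine ⟨J₀, fun t => ?_⟩
    have h3 := ((hφ1 t).sub (mean_ts c r hrc hr0 (NN 3 J₀) t)).norm
    refine le_of_tendsto h3 ?_
    filter_upwards [tendsto_snd_UW.eventually_ge_atTop 1] with q hq
    exact hJ₀ J₀ le_rfl t q hq
  have hlc : ∀ p, Continuous fun t => lc c r p t := by
    intro p
    suffices h : Continuous (Function.uncurry fun (t : ℂ) (θ : ℝ) => ch t (gp c r p (ee 1 θ))) by
      have h6 := intervalIntegral.continuous_parametric_intervalIntegral_of_continuous'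
        (μ := volume) h 0 (2 * Real.pi)
      exact h6.const_smul (2 * Real.pi : ℝ)⁻¹
    have h4 : Continuous fun θ => gp c r p (ee 1 θ) :=
      (continuous_gp c r hrc p).comp_continuous (continuous_ee 1) fun θ => by
        rw [mem_sphere_zero_iff_norm, norm_ee]
    show Continuous fun z : ℂ × ℝ => ch z.1 (gp c r p (ee 1 z.2))
    unfold ch
    have h5 : Continuous fun z : ℂ × ℝ => gp c r p (ee 1 z.2) := h4.comp continuous_snd
    fun_prop
  have haf : ∀ N, Continuous fun t => af c r N t := by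
    intro N
    unfold af
    exact continuous_finsetProd _ fun p _ => hlc p
  have haf0 : ∀ N, af c r N 0 = 1 := by
    intro N
    unfold af
    refine prod_eq_one fun p _ => ?_
    unfold lc cmean ch
    simp only [inner_zero_right, Complex.ofReal_zero, zero_mul, Complex.exp_zero,
      intervalIntegral.integral_const, sub_zero, smul_smul]
    rw [inv_mul_cancel₀ two_pi_pos'.ne', one_smul]
  have hφ0 : φ 0 = 1 := by
    refine tendsto_nhds_unique (hφ2 0) ?_
    simp only [haf0]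
    exact tendsto_const_nhds
  rw [Metric.continuousAt_iff]
  intro ε hε
  obtain ⟨J, hJ⟩ := h2 (ε / 4) (by positivity)
  have hca : ContinuousAt (fun t => af c r (NN 3 J) t) 0 := (haf (NN 3 J)).continuousAt
  obtain ⟨δ, hδ, hδ'⟩ := Metric.continuousAt_iff.1 hca (ε / 4) (by positivity)
  refine ⟨min δ 1, by positivity, fun {t} ht => ?_⟩
  have ht1 : dist t 0 < δ := ht.trans_le (min_le_left _ _)
  have ht2 : ‖t‖ < 1 := by
    have := ht.trans_le (min_le_right _ _)
    rwa [dist_zero_right] at this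
  have h3 := hδ' ht1
  have h4 := hJ t
  rw [dist_eq_norm, haf0] at h3
  rw [dist_eq_norm, hφ0]
  have h5 : φ t - 1 = (φ t - af c r (NN 3 J) t) + (af c r (NN 3 J) t - 1) := by ring
  rw [h5]
  refine (norm_add_le _ _).trans_lt ?_
  nlinarith

include hrc in
/-- A bound by finitely many factors. -/
lemma phi_le (φ : ℂ → ℂ) (hφ : ∀ t, Tendsto (fun J => af c r (NN 3 J) t) atTop (𝓝 (φ t)))
    (P : Finset ℕ) (hP : ∀ p ∈ P, p.Prime) (t : ℂ) : ‖φ t‖ ≤ ∏ p ∈ P, ‖lc c r p t‖ := by
  refine le_of_tendsto (hφ t).norm ?_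
  filter_upwards [(tendsto_NN 3).eventually_ge_atTop (P.sup id + 1)] with J hJ
  unfold af
  rw [norm_prod]
  refine Finset.prod_le_prod_of_subset_of_le_one ?_ (fun _ _ => norm_nonneg _)
    (fun p _ _ => norm_lc_le c r p t)
  intro p hp
  rw [mem_filter, mem_range]
  refine ⟨?_, hP p hp⟩
  have : p ≤ P.sup id := Finset.le_sup (f := id) hp
  omega

end

end Pool.Agent.N903.EL
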