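import Mathlib

/-!
# Probability measures with rapidly decreasing characteristic functions have smooth densities
-/

set_option autoImplicit false
set_option linter.unusedSectionVars false

namespace Pool.Agent.N903.EL

open MeasureTheory Filter Topology FourierTransform
open scoped SchwartzMap
open scoped ContDiff RealInnerProductSpace ENNReal

variable {V : Type*} [NormedAddCommGroup V] [InnerProductSpace ℝ V] [FiniteDimensional ℝ V]
  [MeasurableSpace V] [BorelSpace V]

/-- The rescaled characteristic function. -/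
noncomputable def Ph (ν : Measure V) (ξ : V) : ℂ := charFun ν ((2 * Real.pi) • ξ)

lemma continuous_Ph (ν : Measure V) [IsProbabilityMeasure ν] : Continuous (Ph ν) := by
  unfold Ph
  have h : Continuous (charFun ν) := by fun_prop
  exact h.comp (continuous_const_smul _)

lemma Ph_eq (ν : Measure V) (ξ : V) :
    Ph ν ξ = ∫ x, (Real.fourierChar (inner ℝ x ξ) : ℂ) ∂ν := by
  unfold Ph
  rw [charFun_apply]
  refine integral_congr_ae (Eventually.of_forall fun x => ?_)
  simp only [Real.fourierChar_apply, inner_smul_right]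

/-- Parseval's formula. -/
lemma parseval (ν : Measure V) [IsProbabilityMeasure ν] (hi : Integrable (Ph ν)) (F : 𝓢(V, ℂ)) :
    ∫ x, F x ∂ν = ∫ x, F x * 𝓕 (Ph ν) x := by
  set H : 𝓢(V, ℂ) := 𝓕 F with hH
  have h1 : ∀ x, F x = VectorFourier.fourierIntegral Real.fourierChar volume (-innerₗ V)
      (fun ξ => H ξ) x := by
    intro x
    have h2 : F x = (𝓕⁻ (𝓕 (F : V → ℂ))) x := by
      rw [← SchwartzMap.fourier_coe, ← SchwartzMap.fourierInv_coe,
        FourierTransform.fourierInv_fourier_eq]
    rw [h2, Real.fourierInv_eq]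
    unfold VectorFourier.fourierIntegral
    refine integral_congr_ae (Eventually.of_forall fun ξ => ?_)
    beta_reduce
    rw [hH, SchwartzMap.fourier_coe]
    simp
  have h2 : ∫ x, F x ∂ν = ∫ ξ, H ξ * Ph ν ξ := by
    have h3 := VectorFourier.integral_fourierIntegral_smul_eq_flip
      (μ := (volume : Measure V)) (ν := ν) (L := -innerₗ V) (f := fun ξ => H ξ)
      (g := fun _ : V => (1 : ℂ)) Real.continuous_fourierChar (by
        simp only [LinearMap.neg_apply, innerₗ_apply_apply]
        exact continuous_inner.neg) H.integrable (integrable_const _)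
    have h4 : ∀ ξ, VectorFourier.fourierIntegral Real.fourierChar ν (-innerₗ V).flip
        (fun _ : V => (1 : ℂ)) ξ = Ph ν ξ := by
      intro ξ
      rw [Ph_eq]
      unfold VectorFourier.fourierIntegral
      refine integral_congr_ae (Eventually.of_forall fun x => ?_)
      simp only [map_neg, LinearMap.flip_apply, LinearMap.neg_apply, innerₗ_apply_apply,
        neg_neg]
      rw [Circle.smul_def, smul_eq_mul, mul_one, real_inner_comm]
    simp only [h4, smul_eq_mul, mul_one] at h3
    rw [← h3]
    exact integral_congr_ae (Eventually.of_forall fun x => h1 x)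
  rw [h2]
  have h5 := VectorFourier.integral_fourierIntegral_smul_eq_flip
    (μ := (volume : Measure V)) (ν := (volume : Measure V)) (L := innerₗ V) (f := fun ξ => F ξ)
    (g := Ph ν) Real.continuous_fourierChar (by
      simp only [innerₗ_apply_apply]
      exact continuous_inner) F.integrable hi
  simp only [smul_eq_mul] at h5
  refine Eq.trans ?_ (h5.trans ?_)
  · refine integral_congr_ae (Eventually.of_forall fun ξ => ?_)
    beta_reduce
    rw [hH, SchwartzMap.fourier_coe]
    rfl
  · refine integral_congr_ae (Eventually.of_forall fun ξ => ?_)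
    beta_reduce
    congr 1
    rw [Real.fourier_eq]
    unfold VectorFourier.fourierIntegral
    refine integral_congr_ae (Eventually.of_forall fun ξ => ?_)
    simp


section
variable (ν : Measure V) [IsProbabilityMeasure ν] (hi : Integrable (Ph ν))

lemma continuous_G (hi : Integrable (Ph ν)) : Continuous (𝓕 (Ph ν)) := by
  have h := VectorFourier.fourierIntegral_continuous (μ := (volume : Measure V))
    (L := innerₗ V) (f := Ph ν) Real.continuous_fourierChar (by
      simp only [innerₗ_apply_apply]
      exact continuous_inner) hi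
  exact h

include hi in
lemma parseval' (F : V → ℂ) (h1 : HasCompactSupport F) (h2 : ContDiff ℝ ∞ F) :
    ∫ x, F x ∂ν = ∫ x, F x * 𝓕 (Ph ν) x :=
  parseval ν hi (h1.toSchwartzMap h2)

include hi in
/-- The density is real and nonnegative. -/
lemma G_nonneg (x₀ : V) : 0 ≤ (𝓕 (Ph ν) x₀).re ∧ (𝓕 (Ph ν) x₀).im = 0 := by
  have key : ∀ ε : ℝ, 0 < ε → ∃ r : ℝ, 0 ≤ r ∧ ‖(r : ℂ) - 𝓕 (Ph ν) x₀‖ ≤ ε := by
    intro ε hε
    obtain ⟨δ, hδ, hδ'⟩ := Metric.continuous_iff.1 (continuous_G ν hi) x₀ ε hε
    set φ : ContDiffBump x₀ := ⟨δ / 4, δ / 2, by positivity, by linarith⟩ with hφ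
    set F : V → ℂ := fun x => ((φ.normed volume x : ℝ) : ℂ) with hF
    have hFc : HasCompactSupport F := (φ.hasCompactSupport_normed (μ := volume)).comp_left
      (g := fun r : ℝ => (r : ℂ)) Complex.ofReal_zero
    have hFd : ContDiff ℝ ∞ F := Complex.ofRealCLM.contDiff.comp φ.contDiff_normed
    have h1 := parseval' ν hi F hFc hFd
    have h2 : ∫ x, F x ∂ν = ((∫ x, φ.normed volume x ∂ν : ℝ) : ℂ) :=
      integral_complex_ofReal
    refine ⟨∫ x, φ.normed volume x ∂ν, integral_nonneg fun x => φ.nonneg_normed x, ?_⟩
    rw [← h2, h1]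
    have h3 : 𝓕 (Ph ν) x₀ = ∫ x, F x * 𝓕 (Ph ν) x₀ := by
      rw [integral_mul_const, hF, integral_complex_ofReal, φ.integral_normed]
      simp
    have hcF : Continuous F := hFd.continuous
    have hiF : Integrable F := hcF.integrable_of_hasCompactSupport hFc
    have hi1 : Integrable fun x => F x * 𝓕 (Ph ν) x :=
      (hcF.mul (continuous_G ν hi)).integrable_of_hasCompactSupport hFc.mul_right
    conv_lhs => rw [h3]
    rw [← integral_sub hi1 (hiF.mul_const _)]
    refine (norm_integral_le_integral_norm _).trans ?_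
    have h4 : ∀ x, ‖F x * 𝓕 (Ph ν) x - F x * 𝓕 (Ph ν) x₀‖ ≤ φ.normed volume x * ε := by
      intro x
      rw [← mul_sub, norm_mul, hF, Complex.norm_real,
        Real.norm_of_nonneg (φ.nonneg_normed x)]
      by_cases hx : dist x x₀ < δ
      · exact mul_le_mul_of_nonneg_left (by
          have := (hδ' x hx).le
          rwa [dist_eq_norm] at this) (φ.nonneg_normed x)
      · have h5 : φ.normed volume x = 0 := by
          by_contra h6
          have h7 : x ∈ Function.support (φ.normed volume) := h6
          rw [φ.support_normed_eq, Metric.mem_ball] at h7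
          apply hx
          have : φ.rOut = δ / 2 := rfl
          rw [this] at h7
          linarith
        rw [h5, zero_mul, zero_mul]
    refine (integral_mono (hi1.sub (hiF.mul_const _)).norm ?_ h4).trans ?_
    · exact (φ.integrable_normed).mul_const _
    · rw [integral_mul_const, φ.integral_normed, one_mul]
  constructor
  · by_contra h
    push Not at h
    obtain ⟨r, hr0, hr⟩ := key (-(𝓕 (Ph ν) x₀).re / 2) (by linarith)
    have h1 := (Complex.abs_re_le_norm _).trans hr
    rw [Complex.sub_re, Complex.ofReal_re] at h1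
    have h2 := le_abs_self (r - (𝓕 (Ph ν) x₀).re)
    linarith
  · by_contra h
    have h' : 0 < |(𝓕 (Ph ν) x₀).im| := abs_pos.2 h
    obtain ⟨r, hr0, hr⟩ := key (|(𝓕 (Ph ν) x₀).im| / 2) (by linarith)
    have h1 := (Complex.abs_im_le_norm _).trans hr
    rw [Complex.sub_im, Complex.ofReal_im, zero_sub, abs_neg] at h1
    linarith

/-- The density. -/
noncomputable def dens (x : V) : ℝ := (𝓕 (Ph ν) x).re

include hi in
lemma dens_eq (x : V) : 𝓕 (Ph ν) x = (dens ν x : ℂ) := by
  apply Complex.ext
  · rfl
  · rw [Complex.ofReal_im]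
    exact (G_nonneg ν hi x).2

include hi in
lemma dens_nonneg (x : V) : 0 ≤ dens ν x := (G_nonneg ν hi x).1

lemma continuous_dens (hi : Integrable (Ph ν)) : Continuous (dens ν) :=
  Complex.continuous_re.comp (continuous_G ν hi)

/-- The cut-off functions. -/
noncomputable def chi (n : ℕ) : ContDiffBump (0 : V) :=
  ⟨n + 1, n + 2, by positivity, by linarith⟩

lemma chi_one (x : V) : ∀ᶠ n : ℕ in atTop, (chi n : ContDiffBump (0 : V)) x = 1 := by
  filter_upwards [eventually_ge_atTop ⌈‖x‖⌉₊] with n hn
  refine ContDiffBump.one_of_mem_closedBall _ ?_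
  rw [mem_closedBall_zero_iff]
  have h1 : ‖x‖ ≤ n := (Nat.le_ceil _).trans (by exact_mod_cast hn)
  show ‖x‖ ≤ (n : ℝ) + 1
  linarith

/-- The test functions. -/
noncomputable def tf (t : V) (n : ℕ) (x : V) : ℂ :=
  ((chi n : ContDiffBump (0 : V)) x : ℂ) * Complex.exp ((inner ℝ x t : ℝ) * Complex.I)

lemma tf_compact (t : V) (n : ℕ) : HasCompactSupport (tf t n) := by
  unfold tf
  refine HasCompactSupport.mul_right ?_
  exact ((chi n : ContDiffBump (0 : V)).hasCompactSupport).comp_left
      (g := fun r : ℝ => (r : ℂ)) Complex.ofReal_zero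

lemma tf_smooth (t : V) (n : ℕ) : ContDiff ℝ ∞ (tf t n) := by
  unfold tf
  refine ContDiff.mul (Complex.ofRealCLM.contDiff.comp (chi n).contDiff) ?_
  refine ContDiff.cexp (ContDiff.mul ?_ contDiff_const)
  exact Complex.ofRealCLM.contDiff.comp (contDiff_id.inner ℝ contDiff_const)

lemma norm_tf (t : V) (n : ℕ) (x : V) : ‖tf t n x‖ ≤ 1 := by
  unfold tf
  rw [norm_mul, Complex.norm_exp_ofReal_mul_I, mul_one, Complex.norm_real,
    Real.norm_of_nonneg (chi n).nonneg]
  exact (chi n).le_one

lemma tf_lim (t x : V) : Tendsto (fun n => tf t n x) atTop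
    (𝓝 (Complex.exp ((inner ℝ x t : ℝ) * Complex.I))) := by
  refine tendsto_const_nhds.congr' ?_
  filter_upwards [chi_one x] with n hn
  unfold tf
  rw [hn, Complex.ofReal_one, one_mul]

include hi in
lemma lint_dens : ∫⁻ x, ENNReal.ofReal (dens ν x) ≤ 1 := by
  have h1 : ∀ x, ENNReal.ofReal (dens ν x) =
      liminf (fun n : ℕ => ENNReal.ofReal ((chi n : ContDiffBump (0 : V)) x * dens ν x)) atTop := by
    intro x
    refine (Tendsto.liminf_eq ?_).symm
    refine tendsto_const_nhds.congr' ?_
    filter_upwards [chi_one x] with n hn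
    rw [hn, one_mul]
  simp only [h1]
  refine (lintegral_liminf_le fun n => ?_).trans ?_
  · exact ENNReal.measurable_ofReal.comp
      (((chi n).continuous.mul (continuous_dens ν hi)).measurable)
  · refine liminf_le_of_frequently_le' (Frequently.of_forall fun n => ?_)
    have hc : Continuous fun x => (chi n : ContDiffBump (0 : V)) x * dens ν x :=
      (chi n).continuous.mul (continuous_dens ν hi)
    have hi1 : Integrable fun x => (chi n : ContDiffBump (0 : V)) x * dens ν x :=
      hc.integrable_of_hasCompactSupport (chi n).hasCompactSupport.mul_right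
    rw [← ofReal_integral_eq_lintegral_ofReal hi1
      (Eventually.of_forall fun x => mul_nonneg (chi n).nonneg (dens_nonneg ν hi x))]
    have h2 := parseval' ν hi (tf 0 n) (tf_compact 0 n) (tf_smooth 0 n)
    have h3 : ∀ x : V, tf 0 n x = (((chi n : ContDiffBump (0 : V)) x : ℝ) : ℂ) := by
      intro x
      unfold tf
      simp
    simp only [h3, dens_eq ν hi, ← Complex.ofReal_mul] at h2
    rw [integral_complex_ofReal, integral_complex_ofReal] at h2
    have h4 : ∫ x, (chi n : ContDiffBump (0 : V)) x ∂ν =
        ∫ x, (chi n : ContDiffBump (0 : V)) x * dens ν x := by exact_mod_cast h2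
    rw [← h4]
    refine ENNReal.ofReal_le_one.2 ?_
    have h5 : ∫ x, (chi n : ContDiffBump (0 : V)) x ∂ν ≤ ∫ _, (1 : ℝ) ∂ν := by
      refine integral_mono_of_nonneg (Eventually.of_forall fun x => (chi n).nonneg)
        (integrable_const _) (Eventually.of_forall fun x => (chi n).le_one)
    simpa using h5

include hi in
lemma integrable_dens : Integrable (dens ν) := by
  refine ⟨(continuous_dens ν hi).aestronglyMeasurable, ?_⟩
  rw [hasFiniteIntegral_iff_ofReal (Eventually.of_forall (dens_nonneg ν hi))]
  exact (lint_dens ν hi).trans_lt ENNReal.one_lt_top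

include hi in
/-- The measure has the density `dens`. -/
theorem eq_dens : ν = volume.withDensity fun x => ENNReal.ofReal (dens ν x) := by
  have hm : Measurable fun x => ENNReal.ofReal (dens ν x) :=
    ENNReal.measurable_ofReal.comp (continuous_dens ν hi).measurable
  have hfin : IsFiniteMeasure (volume.withDensity fun x => ENNReal.ofReal (dens ν x)) := by
    constructor
    rw [withDensity_apply _ MeasurableSet.univ, Measure.restrict_univ]
    exact (lint_dens ν hi).trans_lt ENNReal.one_lt_top
  refine Measure.ext_of_charFun (funext fun t => ?_)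
  have h1 : Tendsto (fun n => ∫ x, tf t n x ∂ν) atTop (𝓝 (charFun ν t)) := by
    rw [charFun_apply]
    refine tendsto_integral_of_dominated_convergence (fun _ => 1)
      (fun n => (tf_smooth t n).continuous.aestronglyMeasurable) (integrable_const _)
      (fun n => Eventually.of_forall (norm_tf t n)) (Eventually.of_forall fun x => tf_lim t x)
  have h2 : Tendsto (fun n => ∫ x, tf t n x * (dens ν x : ℂ)) atTop
      (𝓝 (∫ x, Complex.exp ((inner ℝ x t : ℝ) * Complex.I) * (dens ν x : ℂ))) := by
    refine tendsto_integral_of_dominated_convergence (fun x => dens ν x)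
      (fun n => ((tf_smooth t n).continuous.mul (Complex.continuous_ofReal.comp
        (continuous_dens ν hi))).aestronglyMeasurable) (integrable_dens ν hi)
      (fun n => Eventually.of_forall fun x => ?_)
      (Eventually.of_forall fun x => (tf_lim t x).mul_const _)
    rw [norm_mul, Complex.norm_real, Real.norm_of_nonneg (dens_nonneg ν hi x)]
    exact mul_le_of_le_one_left (dens_nonneg ν hi x) (norm_tf t n x)
  have h3 : ∀ n, ∫ x, tf t n x ∂ν = ∫ x, tf t n x * (dens ν x : ℂ) := by
    intro n
    rw [parseval' ν hi (tf t n) (tf_compact t n) (tf_smooth t n)]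
    simp only [dens_eq ν hi]
  simp only [h3] at h1
  rw [tendsto_nhds_unique h1 h2, charFun_apply, integral_withDensity_eq_integral_toReal_smul hm
    (Eventually.of_forall fun x => ENNReal.ofReal_lt_top)]
  refine integral_congr_ae (Eventually.of_forall fun x => ?_)
  beta_reduce
  rw [ENNReal.toReal_ofReal (dens_nonneg ν hi x), Complex.real_smul, mul_comm]

/-- **Smooth densities.** -/
theorem smooth_density (hdec : ∀ n : ℕ, Integrable fun ξ => ‖ξ‖ ^ n * ‖Ph ν ξ‖) :
    ∃ g : V → ℝ, ContDiff ℝ ∞ g ∧ (∀ x, 0 ≤ g x) ∧ Integrable g ∧ ∫ x, g x = 1 ∧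
      ν = volume.withDensity fun x => ENNReal.ofReal (g x) := by
  have hi : Integrable (Ph ν) := by
    have h := hdec 0
    simp only [pow_zero, one_mul] at h
    exact (integrable_norm_iff (continuous_Ph ν).aestronglyMeasurable).1 h
  have he := eq_dens ν hi
  refine ⟨dens ν, ?_, dens_nonneg ν hi, integrable_dens ν hi, ?_, he⟩
  · have h1 : ContDiff ℝ ∞ (𝓕 (Ph ν)) := Real.contDiff_fourier (N := ⊤) fun n _ => hdec n
    exact Complex.reCLM.contDiff.comp h1
  · have h1 : ν Set.univ = 1 := measure_univ
    rw [he, withDensity_apply _ MeasurableSet.univ, Measure.restrict_univ,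
      ← ofReal_integral_eq_lintegral_ofReal (integrable_dens ν hi)
        (Eventually.of_forall (dens_nonneg ν hi))] at h1
    have h2 : 0 ≤ ∫ x, dens ν x := integral_nonneg (dens_nonneg ν hi)
    rw [← ENNReal.ofReal_one, ENNReal.ofReal_eq_ofReal_iff h2 zero_le_one] at h1
    exact h1

end

end Pool.Agent.N903.EL
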