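import Pool.Agent.N903.EL.Osc

/-!
# The characteristic function of a local factor
-/

set_option autoImplicit false

namespace Pool.Agent.N903.EL

open MeasureTheory Finset
open scoped ComplexConjugate

/-- The characters of the circle. -/
noncomputable def ee (m : ℤ) (θ : ℝ) : ℂ := Complex.exp ((m * θ : ℝ) * Complex.I)

lemma continuous_ee (m : ℤ) : Continuous (ee m) := by
  unfold ee
  fun_prop

lemma ee_mul (m k : ℤ) (θ : ℝ) : ee m θ * ee k θ = ee (m + k) θ := by
  unfold ee
  rw [← Complex.exp_add]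
  congr 1
  push_cast
  ring

lemma norm_ee (m : ℤ) (θ : ℝ) : ‖ee m θ‖ = 1 := by
  unfold ee
  exact Complex.norm_exp_ofReal_mul_I _

lemma ee_one_pow (j : ℕ) (θ : ℝ) : ee 1 θ ^ j = ee j θ := by
  unfold ee
  rw [← Complex.exp_nat_mul]
  congr 1
  push_cast
  ring

lemma ee_zero (θ : ℝ) : ee 0 θ = 1 := by simp [ee]

lemma conj_ee (m : ℤ) (θ : ℝ) : conj (ee m θ) = ee (-m) θ := by
  unfold ee
  rw [← Complex.exp_conj]
  congr 1
  simp

lemma hasDerivAt_ee (m : ℤ) (θ : ℝ) : HasDerivAt (ee m) (m * Complex.I * ee m θ) θ := by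
  unfold ee
  have h1 : HasDerivAt (fun θ : ℝ => ((m * θ : ℝ) : ℂ) * Complex.I) (m * Complex.I) θ := by
    have h2 : HasDerivAt (fun θ : ℝ => (m : ℝ) * θ) (m : ℝ) θ := by
      simpa using (hasDerivAt_id θ).const_mul (m : ℝ)
    have h3 := (h2.ofReal_comp).mul_const Complex.I
    simpa using h3
  refine (h1.cexp).congr_deriv ?_
  ring

lemma ee_periodic (m : ℤ) : Function.Periodic (ee m) (2 * Real.pi) := by
  intro θ
  unfold ee
  have : (((m * (θ + 2 * Real.pi) : ℝ)) : ℂ) * Complex.I =
      ((m * θ : ℝ) : ℂ) * Complex.I + m * (2 * Real.pi * Complex.I) := by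
    push_cast
    ring
  rw [this, Complex.exp_add, Complex.exp_int_mul_two_pi_mul_I, mul_one]

lemma int_ee (m : ℤ) : ∫ θ in (0 : ℝ)..(2 * Real.pi), ee m θ =
    if m = 0 then ((2 * Real.pi : ℝ) : ℂ) else 0 := by
  split_ifs with h
  · subst h
    simp [ee_zero]
  · have hm : (m : ℂ) * Complex.I ≠ 0 :=
      mul_ne_zero (by exact_mod_cast h) Complex.I_ne_zero
    have h1 : ∀ θ ∈ Set.uIcc (0 : ℝ) (2 * Real.pi),
        HasDerivAt (fun θ => ee m θ / (m * Complex.I)) (ee m θ) θ := by
      intro θ _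
      refine ((hasDerivAt_ee m θ).div_const _).congr_deriv ?_
      field_simp
    rw [intervalIntegral.integral_eq_sub_of_hasDerivAt h1
      ((continuous_ee m).intervalIntegrable _ _)]
    have h2 := ee_periodic m 0
    rw [zero_add] at h2
    rw [h2, sub_self]

section
variable (P : Polynomial ℂ) (n : ℕ)

/-- `-x P'(x) / P(x)`. -/
noncomputable def GG (x : ℂ) : ℂ := -(x * P.derivative.eval x / P.eval x)

variable (hdeg : P.natDegree ≤ n) (h0 : P.coeff 0 = 1)
  (hs : ∑ k ∈ Icc 1 n, ‖P.coeff k‖ ≤ 1 / 2)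
include hdeg h0 hs

lemma eval_near (x : ℂ) (hx : ‖x‖ ≤ 1) : ‖P.eval x - 1‖ ≤ 1 / 2 := by
  have h1 : P.eval x - 1 = ∑ k ∈ Icc 1 n, P.coeff k * x ^ k := by
    rw [Polynomial.eval_eq_sum_range' (Nat.lt_succ_of_le hdeg), Finset.sum_range_succ', h0,
      pow_zero, mul_one, add_sub_cancel_right]
    rw [Finset.sum_bij (fun k _ => k + 1)]
    · intro k hk
      rw [mem_Icc]
      have := mem_range.1 hk
      omega
    · intro a _ b _ h
      omega
    · intro b hb
      rw [mem_Icc] at hb
      exact ⟨b - 1, mem_range.2 (by omega), by omega⟩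
    · intro k _
      rfl
  rw [h1]
  refine (norm_sum_le _ _).trans (le_trans (sum_le_sum fun k _ => ?_) hs)
  rw [norm_mul, norm_pow]
  exact mul_le_of_le_one_right (norm_nonneg _) (pow_le_one₀ (norm_nonneg _) hx)

lemma eval_ge (x : ℂ) (hx : ‖x‖ ≤ 1) : 1 / 2 ≤ ‖P.eval x‖ := by
  have h1 := eval_near P n hdeg h0 hs x hx
  have h2 : (1 : ℝ) ≤ ‖P.eval x‖ + ‖P.eval x - 1‖ := by
    have := norm_sub_le (P.eval x) (P.eval x - 1)
    rw [sub_sub_cancel, norm_one] at this
    exact this
  linarith

lemma eval_ne (x : ℂ) (hx : ‖x‖ ≤ 1) : P.eval x ≠ 0 := by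
  intro h
  have := eval_ge P n hdeg h0 hs x hx
  rw [h, norm_zero] at this
  linarith

lemma int_GG (m : ℕ) :
    ∫ θ in (0 : ℝ)..(2 * Real.pi), GG P (ee 1 θ) * ee m θ = 0 := by
  have h1 : (∮ z in C(0, 1), -(P.derivative.eval z / P.eval z) * z ^ m) = 0 := by
    refine Complex.circleIntegral_eq_zero_of_differentiable_on_off_countable (zero_le_one)
      Set.countable_empty ?_ ?_
    · refine ContinuousOn.mul (ContinuousOn.neg (ContinuousOn.div ?_ ?_ ?_)) ?_
      · exact P.derivative.continuous.continuousOn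
      · exact P.continuous.continuousOn
      · intro z hz
        exact eval_ne P n hdeg h0 hs z (by simpa using hz)
      · exact (continuous_pow m).continuousOn
    · intro z hz
      have hz1 : ‖z‖ ≤ 1 := by
        have := hz.1
        rw [Metric.mem_ball, dist_zero_right] at this
        exact this.le
      exact ((P.derivative.differentiable.differentiableAt.div
        P.differentiable.differentiableAt (eval_ne P n hdeg h0 hs z hz1)).neg).mul
        (differentiable_pow m).differentiableAt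
  unfold circleIntegral at h1
  have h2 : ∀ θ : ℝ, deriv (circleMap 0 1) θ •
      ((fun z => -(P.derivative.eval z / P.eval z) * z ^ m) (circleMap 0 1 θ)) =
      Complex.I * (GG P (ee 1 θ) * ee m θ) := by
    intro θ
    have h3 : circleMap 0 1 θ = ee 1 θ := by
      unfold ee circleMap
      simp
    rw [deriv_circleMap, h3, ← ee_one_pow m θ]
    unfold GG
    rw [smul_eq_mul]
    ring
  have h3 : ∫ θ in (0 : ℝ)..(2 * Real.pi), Complex.I * (GG P (ee 1 θ) * ee m θ) = 0 := by
    rw [← h1]
    exact intervalIntegral.integral_congr fun θ _ => (h2 θ).symm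
  rw [intervalIntegral.integral_const_mul] at h3
  exact (mul_eq_zero.1 h3).resolve_left Complex.I_ne_zero

lemma continuous_GG : Continuous fun θ => GG P (ee 1 θ) := by
  unfold GG
  refine Continuous.neg (Continuous.div ?_ ?_ fun θ => ?_)
  · exact (continuous_ee 1).mul (P.derivative.continuous.comp (continuous_ee 1))
  · exact P.continuous.comp (continuous_ee 1)
  · exact eval_ne P n hdeg h0 hs _ (norm_ee 1 θ).le

/-- The Fourier coefficients of `-x P'(x)`. -/
lemma coeff_id (k : ℕ) : ∑ j ∈ range (n + 1), P.coeff j *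
    ∫ θ in (0 : ℝ)..(2 * Real.pi), GG P (ee 1 θ) * ee ((j : ℤ) - k) θ =
      -((2 * Real.pi : ℝ) * k * P.coeff k) := by
  have hG := continuous_GG P n hdeg h0 hs
  have h1 : ∀ θ, ∑ j ∈ range (n + 1), P.coeff j * (GG P (ee 1 θ) * ee ((j : ℤ) - k) θ) =
      ∑ j ∈ range (n + 1), -(j * P.coeff j) * ee ((j : ℤ) - k) θ := by
    intro θ
    have hne := eval_ne P n hdeg h0 hs _ (norm_ee 1 θ).le
    have h2 : P.eval (ee 1 θ) = ∑ j ∈ range (n + 1), P.coeff j * ee j θ := by
      rw [Polynomial.eval_eq_sum_range' (Nat.lt_succ_of_le hdeg)]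
      exact sum_congr rfl fun j _ => by rw [ee_one_pow]
    have h3 : ee 1 θ * P.derivative.eval (ee 1 θ) =
        ∑ j ∈ range (n + 1), j * P.coeff j * ee j θ := by
      have h4 : P.derivative.natDegree < n + 1 :=
        lt_of_le_of_lt (Polynomial.natDegree_derivative_le P) (by omega)
      rw [Polynomial.eval_eq_sum_range' (Nat.lt_succ_of_lt h4), mul_sum, sum_range_succ]
      have h5 : P.derivative.coeff (n + 1) = 0 := Polynomial.coeff_eq_zero_of_natDegree_lt h4
      rw [h5, zero_mul, mul_zero, add_zero, sum_range_succ, sum_range_succ' _ n]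
      have h6 : P.derivative.coeff n = 0 := by
        rw [Polynomial.coeff_derivative]
        have : P.coeff (n + 1) = 0 := Polynomial.coeff_eq_zero_of_natDegree_lt (by omega)
        rw [this, zero_mul]
      rw [h6, zero_mul, mul_zero, add_zero]
      simp only [Nat.cast_zero, zero_mul, add_zero]
      refine sum_congr rfl fun j _ => ?_
      rw [Polynomial.coeff_derivative, ee_one_pow]
      have h7 : ee ((j + 1 : ℕ) : ℤ) θ = ee 1 θ * ee j θ := by
        rw [ee_mul]
        congr 1
        push_cast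
        ring
      rw [h7]
      push_cast
      ring
    have h4 : ∀ j : ℕ, ee ((j : ℤ) - k) θ = ee j θ * ee (-(k : ℤ)) θ := by
      intro j
      rw [ee_mul, sub_eq_add_neg]
    simp only [h4]
    have h5 : ∑ j ∈ range (n + 1), P.coeff j * (GG P (ee 1 θ) * (ee j θ * ee (-(k : ℤ)) θ)) =
        GG P (ee 1 θ) * P.eval (ee 1 θ) * ee (-(k : ℤ)) θ := by
      rw [h2, mul_sum, sum_mul]
      exact sum_congr rfl fun j _ => by ring
    have h6 : GG P (ee 1 θ) * P.eval (ee 1 θ) = -(ee 1 θ * P.derivative.eval (ee 1 θ)) := by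
      unfold GG
      rw [neg_mul, div_mul_cancel₀ _ hne]
    rw [h5, h6, h3, neg_mul, sum_mul, ← sum_neg_distrib]
    exact sum_congr rfl fun j _ => by ring
  have h2 : ∑ j ∈ range (n + 1), P.coeff j *
      ∫ θ in (0 : ℝ)..(2 * Real.pi), GG P (ee 1 θ) * ee ((j : ℤ) - k) θ =
      ∫ θ in (0 : ℝ)..(2 * Real.pi), ∑ j ∈ range (n + 1),
        P.coeff j * (GG P (ee 1 θ) * ee ((j : ℤ) - k) θ) := by
    rw [intervalIntegral.integral_finsetSum]
    · exact sum_congr rfl fun j _ => (intervalIntegral.integral_const_mul _ _).symm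
    · intro j _
      exact (continuous_const.mul (hG.mul (continuous_ee _))).intervalIntegrable _ _
  rw [h2, intervalIntegral.integral_congr fun θ _ => h1 θ, intervalIntegral.integral_finsetSum]
  · simp only [intervalIntegral.integral_const_mul, int_ee]
    rcases Nat.lt_or_ge n k with hk | hk
    · have h3 : P.coeff k = 0 := Polynomial.coeff_eq_zero_of_natDegree_lt (by omega)
      rw [h3, mul_zero, neg_zero]
      refine sum_eq_zero fun j hj => ?_
      have : j < n + 1 := mem_range.1 hj
      rw [if_neg (by omega), mul_zero]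
    · rw [sum_eq_single k]
      · rw [if_pos (sub_self _)]
        ring
      · intro j _ hj
        rw [if_neg (by omega), mul_zero]
      · intro h
        exact absurd (mem_range.2 (by omega)) h
  · intro j _
    exact (continuous_const.mul (continuous_ee _)).intervalIntegrable _ _

/-- **The local factor.** -/
theorem loc_bound (hn : 1 ≤ n) (g : ℝ → ℂ)
    (hg : ∀ θ, HasDerivAt g (Complex.I * GG P (ee 1 θ)) θ)
    (hper : Function.Periodic g (2 * Real.pi)) (u : ℂ) (hu : ‖u‖ = 1) (R : ℝ) (hR : 0 < R)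
    (k : ℕ) (hk : 1 ≤ k) (hRk : 6 ≤ R * ‖P.coeff k‖) :
    ‖cmean fun θ => Complex.exp ((R * (conj u * g θ).re : ℝ) * Complex.I)‖ ≤
      1 - 1 / (12 * Real.pi * n ^ 2) := by
  have hG := continuous_GG P n hdeg h0 hs
  set f : ℝ → ℝ := fun θ => (conj u * g θ).re with hf
  set f' : ℝ → ℝ := fun θ => (conj u * (Complex.I * GG P (ee 1 θ))).re with hf'
  have hfd : ∀ θ, HasDerivAt f (f' θ) θ := by
    intro θ
    have h1 := (hg θ).const_mul (conj u)
    exact (Complex.reCLM.hasFDerivAt.comp_hasDerivAt θ h1)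
  have hfc : Continuous f := continuous_iff_continuousAt.2 fun θ => (hfd θ).continuousAt
  have hfc' : Continuous f' := by
    simp only [hf']
    exact Complex.continuous_re.comp (continuous_const.mul (continuous_const.mul hG))
  have hfper : Function.Periodic f (2 * Real.pi) := fun θ => by simp only [hf, hper θ]
  -- maximum and minimum
  have hext : ∀ F : ℝ → ℝ, Continuous F → Function.Periodic F (2 * Real.pi) →
      ∃ b, ∀ θ, F θ ≤ F b := by
    intro F hF hFp
    obtain ⟨b, _, hb⟩ := (isCompact_Icc (a := (0 : ℝ)) (b := 2 * Real.pi)).exists_isMaxOn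
      ⟨0, by constructor <;> linarith [two_pi_pos']⟩ hF.continuousOn
    refine ⟨b, fun θ => ?_⟩
    obtain ⟨y, hy, hyθ⟩ := hFp.exists_mem_Ico₀ two_pi_pos' θ
    rw [hyθ]
    exact hb ⟨hy.1, hy.2.le⟩
  obtain ⟨b, hb⟩ := hext f hfc hfper
  obtain ⟨a, ha⟩ := hext (fun θ => -f θ) hfc.neg (fun θ => by simp only [hfper θ])
  set o := f b - f a with ho
  have hac : ∀ θ, f a ≤ f θ := fun θ => by linarith [ha θ]
  have ho0 : 0 ≤ o := by
    rw [ho]
    linarith [hb a]
  -- the Fourier coefficients of `f'`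
  set c := (f a + f b) / 2 with hc
  have hfc0 : ∀ θ, ‖((f θ - c : ℝ) : ℂ)‖ ≤ o / 2 := by
    intro θ
    rw [Complex.norm_real, Real.norm_eq_abs, abs_le]
    constructor
    · rw [hc, ho]
      linarith [hac θ]
    · rw [hc, ho]
      linarith [hb θ]
  have hpart : ∀ m : ℤ, ‖∫ θ in (0 : ℝ)..(2 * Real.pi), (f' θ : ℂ) * ee m θ‖ ≤
      |(m : ℝ)| * Real.pi * o := by
    intro m
    have h1 : ∀ θ ∈ Set.uIcc (0 : ℝ) (2 * Real.pi),
        HasDerivAt (fun θ => ((f θ - c : ℝ) : ℂ) * ee m θ)
          ((f' θ : ℂ) * ee m θ + ((f θ - c : ℝ) : ℂ) * (m * Complex.I * ee m θ)) θ := by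
      intro θ _
      exact (((hfd θ).sub_const c).ofReal_comp).mul (hasDerivAt_ee m θ)
    have hi1 : IntervalIntegrable (fun θ => (f' θ : ℂ) * ee m θ) volume 0 (2 * Real.pi) :=
      ((Complex.continuous_ofReal.comp hfc').mul (continuous_ee m)).intervalIntegrable _ _
    have hi2 : IntervalIntegrable
        (fun θ => ((f θ - c : ℝ) : ℂ) * (m * Complex.I * ee m θ)) volume 0 (2 * Real.pi) :=
      ((Complex.continuous_ofReal.comp (hfc.sub continuous_const)).mul
        (continuous_const.mul (continuous_ee m))).intervalIntegrable _ _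
    have h2 := intervalIntegral.integral_eq_sub_of_hasDerivAt h1 (hi1.add hi2)
    have h3 : f (2 * Real.pi) = f 0 := by
      have := hfper 0
      rwa [zero_add] at this
    have h4 : ee m (2 * Real.pi) = ee m 0 := by
      have := ee_periodic m 0
      rwa [zero_add] at this
    rw [h3, h4, sub_self, intervalIntegral.integral_add hi1 hi2] at h2
    rw [eq_neg_of_add_eq_zero_left h2, norm_neg]
    refine (intervalIntegral.norm_integral_le_of_norm_le_const (C := |(m : ℝ)| * (o / 2))
      fun θ _ => ?_).trans ?_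
    · rw [norm_mul, norm_mul, norm_mul, norm_ee, Complex.norm_I, mul_one, mul_one,
        Complex.norm_intCast, mul_comm]
      exact mul_le_mul_of_nonneg_left (hfc0 θ) (abs_nonneg _)
    · rw [sub_zero, abs_of_pos two_pi_pos']
      apply le_of_eq
      ring
  -- the Fourier coefficients of `G`
  set w : ℂ := conj u * Complex.I with hw
  have hw1 : ‖w‖ = 1 := by
    rw [hw, norm_mul, Complex.norm_I, mul_one, RCLike.norm_conj, hu]
  have hw0 : w ≠ 0 := by
    intro h
    rw [h, norm_zero] at hw1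
    exact zero_ne_one hw1
  have hGc : ∀ k : ℕ, ‖∫ θ in (0 : ℝ)..(2 * Real.pi), GG P (ee 1 θ) * ee (-(k : ℤ)) θ‖ ≤
      2 * k * Real.pi * o := by
    intro k
    have h1 : ∀ θ, (f' θ : ℂ) * ee (-(k : ℤ)) θ = (1 / 2) * w * (GG P (ee 1 θ) * ee (-(k : ℤ)) θ) +
        (1 / 2) * conj w * conj (GG P (ee 1 θ) * ee k θ) := by
      intro θ
      have h2 : (f' θ : ℂ) = (w * GG P (ee 1 θ) + conj (w * GG P (ee 1 θ))) / 2 := by
        rw [Complex.add_conj, hf', hw]
        push_cast
        rw [mul_assoc]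
        ring
      rw [h2, map_mul (starRingEnd ℂ) w (GG P (ee 1 θ)),
        map_mul (starRingEnd ℂ) (GG P (ee 1 θ)) (ee k θ), conj_ee]
      ring
    have h2 : ∫ θ in (0 : ℝ)..(2 * Real.pi), conj (GG P (ee 1 θ) * ee k θ) = 0 := by
      have h3 := int_GG P n hdeg h0 hs k
      have h4 := Complex.conjCLE.toContinuousLinearMap.intervalIntegral_comp_comm
        (μ := volume) (a := 0) (b := 2 * Real.pi) (f := fun θ => GG P (ee 1 θ) * ee k θ)
        ((hG.mul (continuous_ee k)).intervalIntegrable _ _)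
      simp only [ContinuousLinearEquiv.coe_coe, Complex.conjCLE_apply] at h4
      rw [h4, h3, map_zero]
    have hi1 : IntervalIntegrable
        (fun θ => (1 / 2) * w * (GG P (ee 1 θ) * ee (-(k : ℤ)) θ)) volume 0 (2 * Real.pi) :=
      (continuous_const.mul (hG.mul (continuous_ee _))).intervalIntegrable _ _
    have hi2 : IntervalIntegrable
        (fun θ => (1 / 2) * conj w * conj (GG P (ee 1 θ) * ee k θ)) volume 0 (2 * Real.pi) :=
      (continuous_const.mul (Complex.continuous_conj.comp
        (hG.mul (continuous_ee _)))).intervalIntegrable _ _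
    have h3 : ∫ θ in (0 : ℝ)..(2 * Real.pi), (f' θ : ℂ) * ee (-(k : ℤ)) θ =
        (1 / 2) * w * ∫ θ in (0 : ℝ)..(2 * Real.pi), GG P (ee 1 θ) * ee (-(k : ℤ)) θ := by
      rw [intervalIntegral.integral_congr fun θ _ => h1 θ, intervalIntegral.integral_add hi1 hi2,
        intervalIntegral.integral_const_mul, intervalIntegral.integral_const_mul, h2, mul_zero,
        add_zero]
    have h4 := hpart (-(k : ℤ))
    rw [h3, norm_mul, norm_mul, hw1, mul_one] at h4
    have h5 : ‖(1 / 2 : ℂ)‖ = 1 / 2 := by norm_num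
    rw [h5] at h4
    have h6 : |((-(k : ℤ) : ℤ) : ℝ)| = k := by
      push_cast
      rw [abs_neg, Nat.abs_cast]
    rw [h6] at h4
    linarith
  -- the coefficients of `P`
  have hP : ∀ k : ℕ, 1 ≤ k → ‖P.coeff k‖ ≤ 3 / 2 * o := by
    intro k hk
    have hk0 : (0 : ℝ) < k := by exact_mod_cast hk
    have hpi := Real.pi_pos
    have h1 := coeff_id P n hdeg h0 hs k
    have h2 : ‖(2 * Real.pi : ℝ) * (k : ℂ) * P.coeff k‖ ≤
        ∑ j ∈ range (n + 1), ‖P.coeff j‖ * (2 * k * Real.pi * o) := by
      rw [← norm_neg, ← h1]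
      refine (norm_sum_le _ _).trans (sum_le_sum fun j _ => ?_)
      rw [norm_mul]
      refine mul_le_mul_of_nonneg_left ?_ (norm_nonneg _)
      rcases Nat.lt_or_ge j k with hjk | hjk
      · have h3 := hGc (k - j)
        have h4 : (-((k - j : ℕ) : ℤ)) = (j : ℤ) - k := by omega
        rw [h4] at h3
        refine h3.trans ?_
        have h5 : ((k - j : ℕ) : ℝ) ≤ k := by exact_mod_cast Nat.sub_le k j
        gcongr
      · have h3 := int_GG P n hdeg h0 hs (j - k)
        have h4 : (((j - k : ℕ) : ℤ)) = (j : ℤ) - k := by omega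
        rw [h4] at h3
        rw [h3, norm_zero]
        positivity
    rw [← sum_mul] at h2
    have h3 : ∑ j ∈ range (n + 1), ‖P.coeff j‖ ≤ 3 / 2 := by
      rw [Finset.sum_range_succ', h0, norm_one]
      have h4 : ∑ k ∈ range n, ‖P.coeff (k + 1)‖ = ∑ k ∈ Icc 1 n, ‖P.coeff k‖ := by
        rw [Finset.sum_bij (fun k _ => k + 1)]
        · intro k hk
          rw [mem_Icc]
          have := mem_range.1 hk
          omega
        · intro a _ b _ h
          omega
        · intro b hb
          rw [mem_Icc] at hb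
          exact ⟨b - 1, mem_range.2 (by omega), by omega⟩
        · intro k _
          rfl
      rw [h4]
      linarith
    rw [norm_mul, norm_mul, Complex.norm_real, Complex.norm_natCast,
      Real.norm_of_nonneg two_pi_pos'.le] at h2
    have h4 : 2 * Real.pi * k * ‖P.coeff k‖ ≤ 3 / 2 * (2 * k * Real.pi * o) :=
      h2.trans (mul_le_mul_of_nonneg_right h3 (by positivity))
    have h5 : 2 * Real.pi * k * ‖P.coeff k‖ ≤ 2 * Real.pi * k * (3 / 2 * o) := by linarith
    exact le_of_mul_le_mul_left h5 (by positivity)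
  have ho1 : 0 < o := by
    have h1 := hP k hk
    have h2 : 0 < ‖P.coeff k‖ := by
      rcases (norm_nonneg (P.coeff k)).lt_or_eq with h | h
      · exact h
      · rw [← h, mul_zero] at hRk
        linarith
    linarith
  have hn0 : (0 : ℝ) < n := by exact_mod_cast hn
  have hM : ∀ θ, |f' θ| ≤ 3 * n ^ 2 * o := by
    intro θ
    have h1 : |f' θ| ≤ ‖GG P (ee 1 θ)‖ := by
      refine (Complex.abs_re_le_norm _).trans (le_of_eq ?_)
      rw [norm_mul, norm_mul, Complex.norm_I, one_mul, RCLike.norm_conj, hu, one_mul]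
    refine h1.trans ?_
    unfold GG
    rw [norm_neg, norm_div, norm_mul, norm_ee, one_mul]
    have h2 := eval_ge P n hdeg h0 hs _ (norm_ee 1 θ).le
    have h3 : ‖P.derivative.eval (ee 1 θ)‖ ≤ 3 / 2 * n ^ 2 * o := by
      have h4 : P.derivative.natDegree < n := by
        rcases Nat.eq_zero_or_pos P.natDegree with h | h
        · exact lt_of_le_of_lt (Polynomial.natDegree_derivative_le P) (by omega)
        · exact lt_of_le_of_lt (Polynomial.natDegree_derivative_le P) (by omega)
      rw [Polynomial.eval_eq_sum_range' h4]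
      refine (norm_sum_le_of_le (n := fun _ => 3 / 2 * o * n) _ fun j hj => ?_).trans
        (le_of_eq ?_)
      · rw [norm_mul, norm_pow, norm_ee, one_pow, mul_one, Polynomial.coeff_derivative, norm_mul]
        have h5 := hP (j + 1) (by omega)
        have h6 : ‖(j : ℂ) + 1‖ ≤ n := by
          have h7 : (j : ℂ) + 1 = ((j + 1 : ℕ) : ℂ) := by push_cast; ring
          rw [h7, Complex.norm_natCast]
          exact_mod_cast Nat.succ_le_of_lt (mem_range.1 hj)
        exact mul_le_mul h5 h6 (norm_nonneg _) (by positivity)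
      · rw [sum_const, card_range, nsmul_eq_mul]
        ring
    rw [div_le_iff₀ (by linarith)]
    have h5 : 0 ≤ 3 * (n : ℝ) ^ 2 * o := by positivity
    nlinarith
  have h1 := osc_bound f f' hfd hfc' hfper (3 * n ^ 2 * o) o hM (by positivity) a b rfl R hR (by
    have := hP k hk
    nlinarith)
  refine h1.trans (le_of_eq ?_)
  congr 1
  have := Real.pi_pos
  field_simp
  ring

end

end Pool.Agent.N903.EL
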