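import Pool.Agent.N903.EL.Weak
import Pool.Agent.N903.EL.Loc

/-!
# Means of functions of finitely many phases, uniformly in all windows
-/

set_option autoImplicit false
set_option linter.unusedSectionVars false

namespace Pool.Agent.N903.EL

open MeasureTheory Filter Topology UnitAddTorus

section
variable {ι : Type} [Fintype ι]

lemma circle_prob : IsProbabilityMeasure (volume : Measure UnitAddCircle) :=
  ⟨UnitAddCircle.measure_univ⟩

lemma torus_prob : IsProbabilityMeasure (volume : Measure (UnitAddTorus ι)) := by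
  have := circle_prob
  exact inferInstanceAs (IsProbabilityMeasure
    (Measure.pi fun _ : ι => (volume : Measure UnitAddCircle)))

/-- The line `t ↦ t b` in the torus. -/
noncomputable def ln (b : ι → ℝ) (t : ℝ) : UnitAddTorus ι := fun i => ((t * b i : ℝ) : UnitAddCircle)

lemma mFourier_ln (b : ι → ℝ) (n : ι → ℤ) (t : ℝ) :
    mFourier n (ln b t) =
      Complex.exp ((2 * Real.pi * Complex.I * ((∑ i, (n i : ℝ) * b i : ℝ) : ℂ)) * t) := by
  show ∏ i, fourier (n i) (ln b t i) = _
  simp only [ln, fourier_coe_apply]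
  rw [← Complex.exp_sum]
  congr 1
  push_cast
  rw [Finset.mul_sum, Finset.sum_mul]
  refine Finset.sum_congr rfl fun i _ => ?_
  ring

lemma continuous_ln (b : ι → ℝ) : Continuous (ln b) := by
  refine continuous_pi fun i => ?_
  exact (AddCircle.continuous_mk' (1 : ℝ)).comp (continuous_id.mul continuous_const)

lemma mn_norm_le {E : Type*} [NormedAddCommGroup E] [NormedSpace ℝ E] (f : ℝ → E) (B : ℝ)
    (hf : ∀ τ, ‖f τ‖ ≤ B) (q : ℝ × ℝ) (hq : 0 < q.2) : ‖mn f q‖ ≤ B := by
  unfold mn
  rw [norm_smul, norm_inv, Real.norm_of_nonneg hq.le]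
  have h1 := intervalIntegral.norm_integral_le_of_norm_le_const (a := q.1) (b := q.1 + q.2)
    (C := B) (f := f) fun τ _ => hf τ
  rw [add_sub_cancel_left, abs_of_pos hq] at h1
  calc q.2⁻¹ * ‖∫ τ in q.1..(q.1 + q.2), f τ‖ ≤ q.2⁻¹ * (B * q.2) :=
        mul_le_mul_of_nonneg_left h1 (inv_nonneg.2 hq.le)
    _ = B := by field_simp

lemma mn_sub {E : Type*} [NormedAddCommGroup E] [NormedSpace ℝ E] (f g : ℝ → E)
    (hf : ∀ a b, IntervalIntegrable f volume a b) (hg : ∀ a b, IntervalIntegrable g volume a b)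
    (q : ℝ × ℝ) : mn (fun τ => f τ - g τ) q = mn f q - mn g q := by
  unfold mn
  rw [intervalIntegral.integral_sub (hf _ _) (hg _ _), smul_sub]

lemma mn_exp (c : ℂ) (hc : c ≠ 0) (hre : c.re = 0) :
    Tendsto (mn fun τ => Complex.exp (c * τ)) UW (𝓝 0) := by
  have h2 : ∀ᶠ q in UW, ‖mn (fun τ => Complex.exp (c * τ)) q‖ ≤ q.2⁻¹ * (2 / ‖c‖) := by
    filter_upwards [tendsto_snd_UW.eventually_gt_atTop 0] with q hq
    unfold mn
    rw [norm_smul, norm_inv, Real.norm_of_nonneg hq.le, integral_exp_mul_complex hc, norm_div]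
    have h1 : ∀ t : ℝ, ‖Complex.exp (c * t)‖ = 1 := by
      intro t
      rw [Complex.norm_exp, Complex.mul_re, hre]
      simp
    have h3 : ‖Complex.exp (c * ((q.1 + q.2 : ℝ) : ℂ)) - Complex.exp (c * (q.1 : ℂ))‖ ≤ 2 := by
      refine (norm_sub_le _ _).trans ?_
      rw [h1, h1]
      norm_num
    have : 0 < ‖c‖ := norm_pos_iff.2 hc
    gcongr
  have h4 : Tendsto (fun q : ℝ × ℝ => q.2⁻¹ * (2 / ‖c‖)) UW (𝓝 0) := by
    have := (tendsto_inv_atTop_zero.comp tendsto_snd_UW).mul_const (2 / ‖c‖)
    simpa using this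
  exact squeeze_zero_norm' h2 h4

lemma integral_mFourier (n : ι → ℤ) (hn : n ≠ 0) :
    ∫ x : UnitAddTorus ι, mFourier n x = 0 := by
  classical
  obtain ⟨i, hi⟩ : ∃ i, n i ≠ 0 := by
    by_contra h
    push Not at h
    exact hn (funext h)
  set y : UnitAddTorus ι := ln (Pi.single i 1) (1 / (2 * (n i : ℝ))) with hy
  have hni : (n i : ℝ) ≠ 0 := by exact_mod_cast hi
  have h1 : mFourier n y = -1 := by
    rw [hy, mFourier_ln]
    have : ∑ j, (n j : ℝ) * (Pi.single i (1 : ℝ) : ι → ℝ) j = n i := by
      rw [Finset.sum_eq_single i]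
      · simp
      · intro j _ hj
        simp [Pi.single_eq_of_ne hj]
      · simp
    rw [this, ← Complex.exp_pi_mul_I]
    congr 1
    have hnc : ((n i : ℝ) : ℂ) ≠ 0 := Complex.ofReal_ne_zero.2 hni
    push_cast at hnc ⊢
    field_simp
  have h2 : ∀ x, mFourier n (y + x) = mFourier n y * mFourier n x := by
    intro x
    show ∏ i, fourier (n i) ((y + x) i) = (∏ i, fourier (n i) (y i)) * ∏ i, fourier (n i) (x i)
    rw [← Finset.prod_mul_distrib]
    refine Finset.prod_congr rfl fun i _ => ?_
    simp only [Pi.add_apply, fourier_apply, smul_add, AddCircle.toCircle_add, Circle.coe_mul]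
  have h3 := integral_add_left_eq_self (μ := (volume : Measure (UnitAddTorus ι)))
    (fun x => mFourier n x) y
  simp only [h2, h1, neg_one_mul, integral_neg] at h3
  have h4 : (2 : ℂ) * ∫ x : UnitAddTorus ι, mFourier n x = 0 := by
    linear_combination -h3
  exact (mul_eq_zero.1 h4).resolve_left two_ne_zero

lemma integrable_cont (f : C(UnitAddTorus ι, ℂ)) : Integrable fun x : UnitAddTorus ι => f x :=
  f.continuous.integrable_of_hasCompactSupport (HasCompactSupport.of_compactSpace _)

lemma ii_ln (b : ι → ℝ) (f : C(UnitAddTorus ι, ℂ)) (u v : ℝ) :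
    IntervalIntegrable (fun τ => f (ln b τ)) volume u v :=
  (f.continuous.comp (continuous_ln b)).intervalIntegrable _ _

/-- **Equidistribution of the line, uniformly in all windows.** -/
theorem torus_mean (b : ι → ℝ) (hb : ∀ n : ι → ℤ, ∑ i, (n i : ℝ) * b i = 0 → n = 0)
    (f : C(UnitAddTorus ι, ℂ)) :
    Tendsto (mn fun τ => f (ln b τ)) UW (𝓝 (∫ x, f x)) := by
  have := torus_prob (ι := ι)
  have hspan : ∀ g ∈ Submodule.span ℂ (Set.range (mFourier (d := ι))),
      Tendsto (mn fun τ => g (ln b τ)) UW (𝓝 (∫ x, g x)) := by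
    intro g hg
    induction hg using Submodule.span_induction with
    | mem x hx =>
      obtain ⟨n, rfl⟩ := hx
      by_cases hn : n = 0
      · subst hn
        have h1 : ∫ x : UnitAddTorus ι, mFourier (0 : ι → ℤ) x = 1 := by
          simp only [mFourier_zero, ContinuousMap.one_apply, integral_const, probReal_univ,
            one_smul]
        rw [h1]
        refine tendsto_const_nhds.congr' ?_
        filter_upwards [tendsto_snd_UW.eventually_gt_atTop 0] with q hq
        unfold mn
        simp [mFourier_zero, hq.ne']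
      · rw [integral_mFourier n hn]
        simp only [mFourier_ln]
        refine mn_exp _ ?_ ?_
        · have : ((∑ i, (n i : ℝ) * b i : ℝ) : ℂ) ≠ 0 :=
            Complex.ofReal_ne_zero.2 fun h => hn (hb n h)
          have h2 : (2 * Real.pi : ℂ) ≠ 0 := by
            exact_mod_cast (by positivity : (2 * Real.pi : ℝ) ≠ 0)
          exact mul_ne_zero (mul_ne_zero h2 Complex.I_ne_zero) this
        · have e : (2 * (Real.pi : ℂ) * Complex.I * ((∑ i, (n i : ℝ) * b i : ℝ) : ℂ)) =
              ((2 * Real.pi * (∑ i, (n i : ℝ) * b i) : ℝ) : ℂ) * Complex.I := by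
            push_cast
            ring
          rw [e, Complex.re_ofReal_mul, Complex.I_re, mul_zero]
    | zero =>
      simp only [ContinuousMap.coe_zero, Pi.zero_apply, integral_zero]
      unfold mn
      simp
    | add x y _ _ hx hy =>
      have h2 : ∫ z : UnitAddTorus ι, (x + y) z = (∫ z, x z) + ∫ z, y z :=
        integral_add (integrable_cont x) (integrable_cont y)
      rw [h2]
      refine (hx.add hy).congr fun q => ?_
      unfold mn
      rw [← smul_add, ← intervalIntegral.integral_add (ii_ln b x _ _) (ii_ln b y _ _)]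
      rfl
    | smul c x _ hx =>
      have h2 : ∫ z : UnitAddTorus ι, (c • x) z = c * ∫ z, x z :=
        integral_const_mul c (fun z => x z)
      rw [h2]
      refine (hx.const_mul c).congr fun q => ?_
      unfold mn
      rw [mul_smul_comm, ← intervalIntegral.integral_const_mul]
      rfl
  rw [Metric.tendsto_nhds]
  intro ε hε
  have hcl : f ∈ (Submodule.span ℂ (Set.range (mFourier (d := ι)))).topologicalClosure := by
    rw [span_mFourier_closure_eq_top]
    trivial
  obtain ⟨p, hp, hd⟩ := Metric.mem_closure_iff.1 hcl (ε / 3) (by positivity)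
  have hd' : ‖f - p‖ < ε / 3 := by rwa [dist_eq_norm] at hd
  filter_upwards [(Metric.tendsto_nhds.1 (hspan p hp)) (ε / 3) (by positivity),
    tendsto_snd_UW.eventually_gt_atTop 0] with q hq hq0
  rw [dist_eq_norm] at hq ⊢
  have h1 : ‖mn (fun τ => f (ln b τ)) q - mn (fun τ => p (ln b τ)) q‖ ≤ ε / 3 := by
    rw [← mn_sub _ _ (ii_ln b f) (ii_ln b p)]
    refine mn_norm_le _ _ (fun τ => ?_) q hq0
    exact ((f - p).norm_coe_le_norm (ln b τ)).trans hd'.le
  have h2 : ‖(∫ x, p x) - ∫ x, f x‖ ≤ ε / 3 := by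
    rw [← integral_sub (integrable_cont p) (integrable_cont f)]
    have := norm_integral_le_of_norm_le_const (μ := (volume : Measure (UnitAddTorus ι)))
      (f := fun x => p x - f x) (C := ε / 3)
      (Eventually.of_forall fun x => by
        rw [← norm_neg, neg_sub]
        exact ((f - p).norm_coe_le_norm x).trans hd'.le)
    simpa using this
  calc ‖mn (fun τ => f (ln b τ)) q - ∫ x, f x‖
      = ‖(mn (fun τ => f (ln b τ)) q - mn (fun τ => p (ln b τ)) q) +
          (mn (fun τ => p (ln b τ)) q - (∫ x, p x)) + ((∫ x, p x) - ∫ x, f x)‖ := by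
        congr 1
        ring
    _ ≤ _ := norm_add₃_le
    _ < ε := by linarith

end

end Pool.Agent.N903.EL
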