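import Mathlib

/-!
# An oscillatory integral over a period, bounded by the oscillation and the derivative
-/

set_option autoImplicit false

namespace Pool.Agent.N903.EL

open MeasureTheory

/-- The mean over a period. -/
noncomputable def cmean (h : ℝ → ℂ) : ℂ := (2 * Real.pi : ℝ)⁻¹ • ∫ θ in (0 : ℝ)..(2 * Real.pi), h θ

lemma two_pi_pos' : (0 : ℝ) < 2 * Real.pi := by positivity

/-- The real form of the bound: the mean of `1 - cos (R f - α)` is not small. -/
lemma one_sub_cos (f f' : ℝ → ℝ) (hf : ∀ θ, HasDerivAt f (f' θ) θ) (hc : Continuous f')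
    (hper : Function.Periodic f (2 * Real.pi)) (M o : ℝ) (hM : ∀ θ, |f' θ| ≤ M) (hM0 : 0 < M)
    (a b : ℝ) (hab : f b - f a = o) (R α : ℝ) (hR : 0 < R) (hRo : 4 ≤ R * o) :
    o / (2 * M) ≤ ∫ θ in (0 : ℝ)..(2 * Real.pi), (1 - Real.cos (R * f θ - α)) := by
  have hfc : Continuous f := continuous_iff_continuousAt.2 fun θ => (hf θ).continuousAt
  set h : ℝ → ℝ := fun y => 1 - Real.cos (R * y - α) with hh
  have hh0 : ∀ y, 0 ≤ h y := fun y => by
    simp only [hh]
    linarith [Real.cos_le_one (R * y - α)]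
  have hhc : Continuous h := by
    simp only [hh]
    fun_prop
  -- a representative of `b` in `[a, a + 2π)`
  obtain ⟨n, hn⟩ : ∃ n : ℤ, b + n * (2 * Real.pi) ∈ Set.Ico a (a + 2 * Real.pi) := by
    refine ⟨-⌊(b - a) / (2 * Real.pi)⌋, ?_⟩
    have h1 := Int.floor_le ((b - a) / (2 * Real.pi))
    have h2 := Int.lt_floor_add_one ((b - a) / (2 * Real.pi))
    rw [le_div_iff₀ two_pi_pos'] at h1
    rw [div_lt_iff₀ two_pi_pos'] at h2
    push_cast
    constructor
    · nlinarith
    · nlinarith
  set b' := b + n * (2 * Real.pi) with hb'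
  have hfb : f b' = f b := by
    have := hper.int_mul n b
    rw [hb']
    exact this
  -- the substitution
  set H : ℝ → ℝ := fun y => y - Real.sin (R * y - α) / R with hH
  have hHd : ∀ y, HasDerivAt H (h y) y := by
    intro y
    have h1 : HasDerivAt (fun y : ℝ => R * y - α) R y := by
      simpa using ((hasDerivAt_id y).const_mul R).sub_const α
    have h2 := (hasDerivAt_id y).sub ((h1.sin).div_const R)
    refine h2.congr_deriv ?_
    simp only [hh]
    field_simp
  have h1 : ∫ θ in a..b', h (f θ) * f' θ = H (f b') - H (f a) := by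
    refine intervalIntegral.integral_eq_sub_of_hasDerivAt (f := fun θ => H (f θ)) (fun θ _ => ?_) ?_
    · exact (hHd (f θ)).comp θ (hf θ)
    · exact ((hhc.comp hfc).mul hc).intervalIntegrable _ _
  have h2 : o / 2 ≤ H (f b') - H (f a) := by
    rw [hfb]
    simp only [hH]
    have e1 : f b - Real.sin (R * f b - α) / R - (f a - Real.sin (R * f a - α) / R) =
        o - (Real.sin (R * f b - α) - Real.sin (R * f a - α)) / R := by
      rw [← hab]
      ring
    rw [e1]
    have e2 : (Real.sin (R * f b - α) - Real.sin (R * f a - α)) / R ≤ 2 / R := by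
      refine div_le_div_of_nonneg_right ?_ hR.le
      linarith [Real.sin_le_one (R * f b - α), Real.neg_one_le_sin (R * f a - α)]
    have e3 : 2 / R ≤ o / 2 := by
      rw [div_le_iff₀ hR]
      nlinarith
    linarith
  have h3 : ∫ θ in a..b', h (f θ) * f' θ ≤ ∫ θ in a..b', h (f θ) * M := by
    refine intervalIntegral.integral_mono_on hn.1 (((hhc.comp hfc).mul hc).intervalIntegrable _ _)
      (((hhc.comp hfc).mul continuous_const).intervalIntegrable _ _) fun θ _ => ?_
    exact mul_le_mul_of_nonneg_left ((le_abs_self _).trans (hM θ)) (hh0 _)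
  have h4 : ∫ θ in a..b', h (f θ) ≤ ∫ θ in a..(a + 2 * Real.pi), h (f θ) := by
    refine intervalIntegral.integral_mono_interval le_rfl hn.1 hn.2.le
      (Filter.Eventually.of_forall fun θ => hh0 _) ((hhc.comp hfc).intervalIntegrable _ _)
  have h5 : ∫ θ in a..(a + 2 * Real.pi), h (f θ) = ∫ θ in (0 : ℝ)..(2 * Real.pi), h (f θ) := by
    have hp : Function.Periodic (fun θ => h (f θ)) (2 * Real.pi) := fun θ => by
      simp only [hper θ]
    have := hp.intervalIntegral_add_eq a 0
    rwa [zero_add] at this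
  rw [intervalIntegral.integral_mul_const, h1] at h3
  have h6 : o / 2 ≤ (∫ θ in (0 : ℝ)..(2 * Real.pi), h (f θ)) * M := by
    rw [← h5]
    have := mul_le_mul_of_nonneg_right h4 hM0.le
    linarith
  have h7 : o / (2 * M) = o / 2 / M := by rw [div_div]
  rw [h7, div_le_iff₀ hM0]
  exact h6

/-- **The oscillatory integral.** -/
lemma osc_bound (f f' : ℝ → ℝ) (hf : ∀ θ, HasDerivAt f (f' θ) θ) (hc : Continuous f')
    (hper : Function.Periodic f (2 * Real.pi)) (M o : ℝ) (hM : ∀ θ, |f' θ| ≤ M) (hM0 : 0 < M)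
    (a b : ℝ) (hab : f b - f a = o) (R : ℝ) (hR : 0 < R) (hRo : 4 ≤ R * o) :
    ‖cmean fun θ => Complex.exp ((R * f θ : ℝ) * Complex.I)‖ ≤ 1 - o / (4 * Real.pi * M) := by
  have hfc : Continuous f := continuous_iff_continuousAt.2 fun θ => (hf θ).continuousAt
  set E := cmean fun θ => Complex.exp ((R * f θ : ℝ) * Complex.I) with hE
  set α := E.arg with hα
  have h0 : (‖E‖ : ℂ) = E * Complex.exp (-(α : ℝ) * Complex.I) := by
    have := Complex.norm_mul_exp_arg_mul_I E
    rw [← hα] at this
    nth_rewrite 2 [← this]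
    rw [mul_assoc, ← Complex.exp_add]
    have : (α : ℂ) * Complex.I + -(α : ℝ) * Complex.I = 0 := by ring
    rw [this, Complex.exp_zero, mul_one]
  have h1 : E * Complex.exp (-(α : ℝ) * Complex.I) =
      cmean fun θ => Complex.exp ((R * f θ - α : ℝ) * Complex.I) := by
    rw [hE]
    unfold cmean
    rw [smul_mul_assoc, ← intervalIntegral.integral_mul_const]
    congr 1
    refine intervalIntegral.integral_congr fun θ _ => ?_
    beta_reduce
    rw [← Complex.exp_add]
    congr 1
    push_cast
    ring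
  have h2 : ‖E‖ = (2 * Real.pi)⁻¹ * ∫ θ in (0 : ℝ)..(2 * Real.pi), Real.cos (R * f θ - α) := by
    have h3 : (‖E‖ : ℝ) = (cmean fun θ => Complex.exp ((R * f θ - α : ℝ) * Complex.I)).re := by
      rw [← h1, ← h0, Complex.ofReal_re]
    rw [h3]
    unfold cmean
    rw [Complex.smul_re, smul_eq_mul]
    congr 1
    have h4 : IntervalIntegrable (fun θ => Complex.exp ((R * f θ - α : ℝ) * Complex.I)) volume
        0 (2 * Real.pi) := by
      refine Continuous.intervalIntegrable ?_ _ _
      fun_prop
    have h5 := Complex.reCLM.intervalIntegral_comp_comm h4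
    rw [Complex.reCLM_apply] at h5
    rw [← h5]
    refine intervalIntegral.integral_congr fun θ _ => ?_
    simp only [Complex.reCLM_apply, Complex.exp_ofReal_mul_I_re]
  have h3 := one_sub_cos f f' hf hc hper M o hM hM0 a b hab R α hR hRo
  have h4 : ∫ θ in (0 : ℝ)..(2 * Real.pi), (1 - Real.cos (R * f θ - α)) =
      2 * Real.pi - ∫ θ in (0 : ℝ)..(2 * Real.pi), Real.cos (R * f θ - α) := by
    rw [intervalIntegral.integral_sub]
    · simp
    · exact continuous_const.intervalIntegrable _ _
    · refine Continuous.intervalIntegrable ?_ _ _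
      fun_prop
  rw [h4] at h3
  rw [h2]
  have h5 : (2 * Real.pi)⁻¹ * (2 * Real.pi) = 1 := inv_mul_cancel₀ two_pi_pos'.ne'
  have h6 : (2 * Real.pi)⁻¹ * (o / (2 * M)) = o / (4 * Real.pi * M) := by
    have := Real.pi_pos
    field_simp
    ring
  have h7 := mul_le_mul_of_nonneg_left h3 (inv_nonneg.2 two_pi_pos'.le)
  rw [mul_sub, h5, h6] at h7
  linarith

end Pool.Agent.N903.EL
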