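import Pool.Agent.N903.EL.Mean
import Pool.Agent.N903.ED.Wt

/-!
# Means of products of functions of the phases `p^{-iτ}`, uniformly in all windows
-/

set_option autoImplicit false
set_option linter.unusedSectionVars false

namespace Pool.Agent.N903.EL

open MeasureTheory Filter Topology UnitAddTorus Pool.Agent.N903.ED

section
variable {ι : Type} [Fintype ι]

lemma fact_prod (p : ι → ℕ) (hp : ∀ i, (p i).Prime) (hinj : Function.Injective p) (a : ι → ℕ)
    (j : ι) : (∏ i, p i ^ a i).factorization (p j) = a j := by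
  classical
  rw [Nat.factorization_prod (fun i _ => pow_ne_zero _ (hp i).ne_zero), Finsupp.finsetSum_apply]
  rw [Finset.sum_eq_single j]
  · rw [(hp j).factorization_pow, Finsupp.single_eq_same]
  · intro i _ hij
    rw [(hp i).factorization_pow, Finsupp.single_apply, if_neg]
    intro h
    exact hij (hinj h)
  · intro h
    exact absurd (Finset.mem_univ j) h

lemma log_indep (p : ι → ℕ) (hp : ∀ i, (p i).Prime) (hinj : Function.Injective p) (n : ι → ℤ)
    (h : ∑ i, (n i : ℝ) * Real.log (p i) = 0) : n = 0 := by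
  have hp0 : ∀ i, (0 : ℝ) < p i := fun i => by exact_mod_cast (hp i).pos
  have h1 : ∀ a : ι → ℕ, Real.log ((∏ i, p i ^ a i : ℕ) : ℝ) = ∑ i, (a i : ℝ) * Real.log (p i) := by
    intro a
    push_cast
    rw [Real.log_prod (fun i _ => (pow_pos (hp0 i) _).ne')]
    exact Finset.sum_congr rfl fun i _ => Real.log_pow _ _
  set a : ι → ℕ := fun i => (n i).toNat with ha
  set c : ι → ℕ := fun i => (-n i).toNat with hc
  have h2 : ∀ i, (n i : ℝ) = (a i : ℝ) - (c i : ℝ) := by
    intro i
    have : n i = (a i : ℤ) - (c i : ℤ) := by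
      rw [ha, hc]
      simp only [Int.toNat_sub_toNat_neg]
    rw [this]
    push_cast
    ring
  have h3 : ∑ i, (a i : ℝ) * Real.log (p i) = ∑ i, (c i : ℝ) * Real.log (p i) := by
    rw [← sub_eq_zero, ← Finset.sum_sub_distrib, ← h]
    refine Finset.sum_congr rfl fun i _ => ?_
    rw [h2 i]
    ring
  rw [← h1, ← h1] at h3
  have hpos : ∀ a : ι → ℕ, (0 : ℝ) < ((∏ i, p i ^ a i : ℕ) : ℝ) := by
    intro a
    exact_mod_cast Finset.prod_pos fun i _ => pow_pos (hp i).pos _
  have h4 : ((∏ i, p i ^ a i : ℕ) : ℝ) = ((∏ i, p i ^ c i : ℕ) : ℝ) :=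
    Real.log_injOn_pos (hpos a) (hpos c) h3
  have h5 : (∏ i, p i ^ a i) = (∏ i, p i ^ c i) := by exact_mod_cast h4
  funext j
  have h6 := fact_prod p hp hinj a j
  rw [h5, fact_prod p hp hinj c j] at h6
  have h7 := h2 j
  rw [h6, sub_self] at h7
  exact_mod_cast h7

end

/-- A function on the circle. -/
noncomputable def cf1 (H : ℂ → ℂ) (y : UnitAddCircle) : ℂ := H (AddCircle.toCircle y : ℂ)

lemma continuous_cf1 (H : ℂ → ℂ) (hH : ContinuousOn H (Metric.sphere 0 1)) :
    Continuous (cf1 H) := by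
  unfold cf1
  have h1 : Continuous fun y : UnitAddCircle => (AddCircle.toCircle y : ℂ) :=
    continuous_induced_dom.comp AddCircle.continuous_toCircle
  refine hH.comp_continuous h1 fun y => ?_
  rw [mem_sphere_zero_iff_norm]
  exact Circle.norm_coe _

lemma cf1_coe (H : ℂ → ℂ) (t : ℝ) : cf1 H (t : UnitAddCircle) = H (ee 1 (2 * Real.pi * t)) := by
  unfold cf1 ee
  rw [AddCircle.toCircle_apply_mk, Circle.coe_exp]
  congr 2
  push_cast
  ring

lemma int_cf1 (H : ℂ → ℂ) : ∫ y : UnitAddCircle, cf1 H y = cmean fun θ => H (ee 1 θ) := by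
  rw [← UnitAddCircle.intervalIntegral_preimage 0, zero_add]
  simp only [cf1_coe]
  rw [intervalIntegral.integral_comp_mul_left (fun θ => H (ee 1 θ)) two_pi_pos'.ne', mul_zero,
    mul_one]
  rfl

/-- **Means of products of functions of the phases.** -/
theorem prime_mean (Q : Finset ℕ) (hQ : ∀ p ∈ Q, p.Prime) (H : ℕ → ℂ → ℂ)
    (hH : ∀ p ∈ Q, ContinuousOn (H p) (Metric.sphere 0 1)) :
    Tendsto (mn fun τ => ∏ p ∈ Q, H p (ph p τ)) UW
      (𝓝 (∏ p ∈ Q, cmean fun θ => H p (ee 1 θ))) := by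
  classical
  set b : Q → ℝ := fun i => -Real.log (i : ℕ) / (2 * Real.pi) with hb
  have hb' : ∀ n : Q → ℤ, ∑ i, (n i : ℝ) * b i = 0 → n = 0 := by
    intro n hn
    refine log_indep (fun i : Q => (i : ℕ)) (fun i => hQ i i.2) Subtype.val_injective n ?_
    have h1 : ∑ i, (n i : ℝ) * b i = -(2 * Real.pi)⁻¹ * ∑ i, (n i : ℝ) * Real.log (i : ℕ) := by
      rw [Finset.mul_sum]
      refine Finset.sum_congr rfl fun i _ => ?_
      rw [hb]
      ring
    rw [h1] at hn
    have h2 : -(2 * Real.pi)⁻¹ ≠ 0 := neg_ne_zero.2 (inv_ne_zero two_pi_pos'.ne')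
    exact (mul_eq_zero.1 hn).resolve_left h2
  set F : C(UnitAddTorus Q, ℂ) := ⟨fun x => ∏ i : Q, cf1 (H i) (x i), by
    refine continuous_finsetProd _ fun i _ => ?_
    exact (continuous_cf1 (H i) (hH i i.2)).comp (continuous_apply i)⟩ with hF
  have h1 := torus_mean b hb' F
  have h2 : ∀ τ, F (ln b τ) = ∏ p ∈ Q, H p (ph p τ) := by
    intro τ
    show ∏ i : Q, cf1 (H i) ((τ * b i : ℝ) : UnitAddCircle) = _
    simp only [cf1_coe]
    rw [← Finset.prod_coe_sort Q fun p => H p (ph p τ)]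
    refine Finset.prod_congr rfl fun i _ => ?_
    congr 1
    unfold ee ph
    congr 1
    rw [hb]
    have := Real.pi_ne_zero
    push_cast
    have : (Real.pi : ℂ) ≠ 0 := by exact_mod_cast this
    field_simp
  have h3 : ∫ x, F x = ∏ p ∈ Q, cmean fun θ => H p (ee 1 θ) := by
    have h4 : ∫ x : UnitAddTorus Q, F x =
        ∫ x : Q → UnitAddCircle, ∏ i : Q, cf1 (H i) (x i)
          ∂(Measure.pi fun _ => (volume : Measure UnitAddCircle)) := rfl
    rw [h4, integral_fintype_prod_eq_prod (𝕜 := ℂ) (fun (i : Q) (y : UnitAddCircle) => cf1 (H i) y)]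
    simp only [int_cf1]
    rw [← Finset.prod_coe_sort Q fun p => cmean fun θ => H p (ee 1 θ)]
  simp only [h2] at h1
  rwa [h3] at h1

end Pool.Agent.N903.EL
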