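import Pool.Agent.N903.ED.Val
import Pool.Agent.N903.EL.Prod

/-!
# The tail of a prime sum on the edge, uniformly in all windows
-/

set_option autoImplicit false

namespace Pool.Agent.N903.EL

open Finset Filter Topology MeasureTheory Pool.Agent.W350.Edge Pool.Agent.N903.ED
open scoped ENNReal

lemma tail_zero (D : ℝ) (hD : 0 ≤ D) (δ η : ℝ) (hδ : 0 < δ) (hη : 0 < η) :
    ∃ J₀ : ℕ, ∀ a : ℕ → ℂ, (∀ p, ‖a p‖ ≤ D) → ∀ J, J₀ ≤ J → ∀ T : ℝ, 1 ≤ T →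
      volume {τ : ℝ | τ ∈ Set.Ioc 0 T ∧ ∃ l, Tendsto (ps a τ) atTop (𝓝 l) ∧
        δ ≤ ‖l - ps a τ (NN 3 J)‖} ≤ ENNReal.ofReal (η * T) := by
  set θ : ℝ := δ ^ 2 / C2 with hθ
  have hθ0 : 0 < θ := div_pos (by positivity) C2_pos
  have hev : ∀ᶠ J in atTop, EE D J ≤ ENNReal.ofReal (η * θ / 2) := by
    refine (tendsto_EE D).eventually (ge_mem_nhds ?_)
    exact ENNReal.ofReal_pos.2 (by positivity)
  obtain ⟨J₀, hJ₀⟩ := eventually_atTop.1 hev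
  refine ⟨J₀, fun a ha J hJ T hT => ?_⟩
  set m := ⌈T⌉₊ with hm
  have hmT : T ≤ m := Nat.le_ceil T
  have hm2 : (m : ℝ) ≤ 2 * T := by
    have := Nat.ceil_lt_add_one (by linarith : 0 ≤ T)
    rw [← hm] at this
    linarith
  have h1 : {τ : ℝ | τ ∈ Set.Ioc 0 T ∧ ∃ l, Tendsto (ps a τ) atTop (𝓝 l) ∧
      δ ≤ ‖l - ps a τ (NN 3 J)‖} ⊆
      {τ : ℝ | ENNReal.ofReal θ ≤ ED.GG a J τ} ∩ Set.Ioc (0 : ℝ) m := by
    rintro τ ⟨hτ, l, hl, hlδ⟩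
    refine ⟨?_, hτ.1, hτ.2.trans hmT⟩
    have h2 := limit_le a J τ l hl
    have h3 : ENNReal.ofReal (δ ^ 2) ≤ ENNReal.ofReal (‖l - ps a τ (NN 3 J)‖ ^ 2) :=
      ENNReal.ofReal_le_ofReal (pow_le_pow_left₀ hδ.le hlδ 2)
    have h4 := h3.trans h2
    show ENNReal.ofReal θ ≤ ED.GG a J τ
    have hC0 : ENNReal.ofReal C2 ≠ 0 := (ENNReal.ofReal_pos.2 C2_pos).ne'
    have h5 : ENNReal.ofReal θ = ENNReal.ofReal (δ ^ 2) / ENNReal.ofReal C2 := by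
      rw [hθ, ENNReal.ofReal_div_of_pos C2_pos]
    rw [h5, ENNReal.div_le_iff' hC0 ENNReal.ofReal_ne_top]
    exact h4
  refine (measure_mono h1).trans ?_
  have hmeas : MeasurableSet {τ : ℝ | ENNReal.ofReal θ ≤ ED.GG a J τ} :=
    measurableSet_le measurable_const (measurable_GG a J)
  rw [← Measure.restrict_apply hmeas]
  have h2 := meas_ge_le_lintegral_div (μ := volume.restrict (Set.Ioc (0 : ℝ) m))
    (measurable_GG a J).aemeasurable (ε := ENNReal.ofReal θ)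
    (ENNReal.ofReal_pos.2 hθ0).ne' ENNReal.ofReal_ne_top
  refine h2.trans ?_
  rw [ENNReal.div_le_iff (ENNReal.ofReal_pos.2 hθ0).ne' ENNReal.ofReal_ne_top]
  refine (lint_GG a D hD ha J m).trans ?_
  refine (mul_le_mul' le_rfl (hJ₀ J hJ)).trans ?_
  rw [← ENNReal.ofReal_natCast, ← ENNReal.ofReal_mul (Nat.cast_nonneg _),
    ← ENNReal.ofReal_mul (by positivity)]
  refine ENNReal.ofReal_le_ofReal ?_
  have : 0 < η * θ := by positivity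
  nlinarith

/-- **The tail, uniformly in all windows.** -/
theorem tail_window (D : ℝ) (hD : 0 ≤ D) (δ η : ℝ) (hδ : 0 < δ) (hη : 0 < η) :
    ∃ J₀ : ℕ, ∀ a : ℕ → ℂ, (∀ p, ‖a p‖ ≤ D) → ∀ J, J₀ ≤ J → ∀ T : ℝ, 1 ≤ T → ∀ A : ℝ,
      volume {τ : ℝ | τ ∈ Set.Ioc A (A + T) ∧ τ ∉ divSet a ∧
        δ ≤ ‖lm a τ - ps a τ (NN 3 J)‖} ≤ ENNReal.ofReal (η * T) := by
  obtain ⟨J₀, hJ₀⟩ := tail_zero D hD δ η hδ hη
  refine ⟨J₀, fun a ha J hJ T hT A => ?_⟩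
  refine le_trans ?_ (hJ₀ (tw a A) (fun p => by rw [norm_tw]; exact ha p) J hJ T hT)
  rw [← measure_preimage_add_right volume A {τ : ℝ | τ ∈ Set.Ioc A (A + T) ∧ τ ∉ divSet a ∧
        δ ≤ ‖lm a τ - ps a τ (NN 3 J)‖}]
  refine measure_mono fun τ hτ => ?_
  obtain ⟨h1, h2, h3⟩ := hτ
  refine ⟨⟨by linarith [h1.1], by linarith [h1.2]⟩, lm a (τ + A), ?_, ?_⟩
  · rw [ps_tw]
    exact lm_spec h2
  · rw [ps_tw]
    exact h3

end Pool.Agent.N903.EL
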