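import Mathlib

/-!
# Limit laws of functions of a real variable from the means of the characters
-/

set_option autoImplicit false
set_option linter.unusedSectionVars false

namespace Pool.Agent.N903.EL

open MeasureTheory Filter Topology
open scoped RealInnerProductSpace ENNReal BoundedContinuousFunction

/-- Windows `(A, A + T]` with `T → ∞`, uniformly in `A`. -/
def UW : Filter (ℝ × ℝ) := (⊤ : Filter ℝ) ×ˢ atTop

instance : UW.IsCountablyGenerated := by
  unfold UW
  infer_instance

instance : UW.NeBot := by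
  unfold UW
  infer_instance

lemma eventually_UW {p : ℝ × ℝ → Prop} :
    (∀ᶠ q in UW, p q) ↔ ∃ T₀ : ℝ, ∀ T ≥ T₀, ∀ A : ℝ, p (A, T) := by
  unfold UW
  rw [Filter.top_prod]
  rw [eventually_comap, eventually_atTop]
  constructor
  · rintro ⟨T₀, h⟩
    exact ⟨T₀, fun T hT A => h T hT (A, T) rfl⟩
  · rintro ⟨T₀, h⟩
    refine ⟨T₀, fun T hT q hq => ?_⟩
    have := h T hT q.1
    rw [← hq] at this
    exact this

lemma tendsto_snd_UW : Tendsto (fun q : ℝ × ℝ => q.2) UW atTop := by
  unfold UW
  exact tendsto_snd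

/-- The mean over the window `(A, A + T]`. -/
noncomputable def mn {E : Type*} [NormedAddCommGroup E] [NormedSpace ℝ E] (f : ℝ → E)
    (q : ℝ × ℝ) : E := q.2⁻¹ • ∫ τ in q.1..(q.1 + q.2), f τ

variable {V : Type*} [NormedAddCommGroup V] [InnerProductSpace ℝ V] [FiniteDimensional ℝ V]
  [MeasurableSpace V] [BorelSpace V]

/-- The uniform measure on a window. -/
noncomputable def win (q : ℝ × ℝ) : Measure ℝ :=
  (ENNReal.ofReal (max q.2 1))⁻¹ • volume.restrict (Set.Ioc q.1 (q.1 + max q.2 1))

lemma max_pos' (q : ℝ × ℝ) : 0 < max q.2 1 := lt_of_lt_of_le one_pos (le_max_right _ _)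

instance (q : ℝ × ℝ) : IsProbabilityMeasure (win q) := by
  constructor
  unfold win
  rw [Measure.smul_apply, Measure.restrict_apply MeasurableSet.univ, Set.univ_inter,
    Real.volume_Ioc, add_sub_cancel_left, smul_eq_mul]
  exact ENNReal.inv_mul_cancel (ENNReal.ofReal_pos.2 (max_pos' q)).ne' ENNReal.ofReal_ne_top

lemma win_ac (q : ℝ × ℝ) : win q ≪ volume := by
  unfold win
  exact (Measure.smul_absolutelyContinuous).trans
    (Measure.absolutelyContinuous_of_le Measure.restrict_le_self)

lemma integral_win {E : Type*} [NormedAddCommGroup E] [NormedSpace ℝ E] (f : ℝ → E)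
    (q : ℝ × ℝ) (hq : 1 ≤ q.2) : ∫ τ, f τ ∂(win q) = mn f q := by
  unfold win mn
  rw [integral_smul_measure, max_eq_left hq, ENNReal.toReal_inv,
    ENNReal.toReal_ofReal (by linarith), intervalIntegral.integral_of_le (by linarith)]

/-- The law of `l` on a window. -/
noncomputable def pm (l : ℝ → V) (hl : AEMeasurable l) (q : ℝ × ℝ) : ProbabilityMeasure V :=
  ⟨(win q).map l, Measure.isProbabilityMeasure_map (hl.mono_ac (win_ac q))⟩

lemma pm_integral (l : ℝ → V) (hl : AEMeasurable l) (q : ℝ × ℝ) (hq : 1 ≤ q.2)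
    {E : Type*} [NormedAddCommGroup E] [NormedSpace ℝ E] (F : V → E) (hF : Continuous F) :
    ∫ x, F x ∂(pm l hl q : Measure V) = mn (fun τ => F (l τ)) q := by
  have h1 : (pm l hl q : Measure V) = (win q).map l := rfl
  have : SecondCountableTopology V := inferInstance
  rw [h1, integral_map (hl.mono_ac (win_ac q)) hF.aestronglyMeasurable, integral_win _ q hq]

lemma pm_charFun (l : ℝ → V) (hl : AEMeasurable l) (q : ℝ × ℝ) (hq : 1 ≤ q.2) (t : V) :
    charFun (pm l hl q : Measure V) t =
      mn (fun τ => Complex.exp ((inner ℝ (l τ) t : ℝ) * Complex.I)) q := by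
  rw [charFun_apply]
  refine pm_integral l hl q hq (fun x => Complex.exp ((inner ℝ x t : ℝ) * Complex.I)) ?_
  fun_prop

/-- **Limit laws from the means of the characters.** -/
theorem limit_law (l : ℝ → V) (hl : AEMeasurable l) (φ : V → ℂ) (hφ : ContinuousAt φ 0)
    (hmean : ∀ t, Tendsto (mn fun τ => Complex.exp ((inner ℝ (l τ) t : ℝ) * Complex.I)) UW
      (𝓝 (φ t))) :
    ∃ ν : ProbabilityMeasure V, (∀ t, charFun (ν : Measure V) t = φ t) ∧
      ∀ F : V →ᵇ ℝ, Tendsto (mn fun τ => F (l τ)) UW (𝓝 (∫ x, F x ∂(ν : Measure V))) := by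
  have hchar : ∀ t, Tendsto (fun q => charFun (pm l hl q : Measure V) t) UW (𝓝 (φ t)) := by
    intro t
    refine (hmean t).congr' ?_
    filter_upwards [tendsto_snd_UW.eventually_ge_atTop 1] with q hq
    exact (pm_charFun l hl q hq t).symm
  have hseq : Tendsto (fun n : ℕ => ((0 : ℝ), (n : ℝ))) atTop UW := by
    unfold UW
    exact Tendsto.prodMk tendsto_top tendsto_natCast_atTop_atTop
  set μ : ℕ → ProbabilityMeasure V := fun n => pm l hl (0, (n : ℝ)) with hμ
  have hchar' : ∀ t, Tendsto (fun n => charFun (μ n : Measure V) t) atTop (𝓝 (φ t)) :=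
    fun t => (hchar t).comp hseq
  have h_tight : IsTightMeasureSet (Set.range fun n => (μ n : Measure V)) :=
    isTightMeasureSet_of_tendsto_charFun hφ hchar'
  have h_compact : IsCompact (closure (Set.range μ)) := by
    refine isCompact_closure_of_isTightMeasureSet ?_
    refine IsTightMeasureSet.subset h_tight ?_
    rintro _ ⟨x, ⟨n, rfl⟩, rfl⟩
    exact ⟨n, rfl⟩
  set W : Ultrafilter ℕ := Ultrafilter.of atTop with hW
  obtain ⟨ν, -, hν⟩ := h_compact.ultrafilter_le_nhds (W.map μ)
    (by
      rw [Ultrafilter.coe_map]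
      refine le_principal_iff.2 ?_
      exact mem_map.2 (univ_mem' fun n => subset_closure ⟨n, rfl⟩))
  have hν' : Tendsto μ (W : Filter ℕ) (𝓝 ν) := hν
  have hνφ : ∀ t, charFun (ν : Measure V) t = φ t := by
    intro t
    have h1 : Tendsto (fun n => charFun (μ n : Measure V) t) (W : Filter ℕ)
        (𝓝 (charFun (ν : Measure V) t)) := by
      rw [ProbabilityMeasure.tendsto_iff_forall_integral_rclike_tendsto ℂ] at hν'
      simp_rw [charFun_eq_integral_innerProbChar]
      exact hν' (BoundedContinuousFunction.innerProbChar t)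
    exact tendsto_nhds_unique h1 ((hchar' t).mono_left (Ultrafilter.of_le atTop))
  refine ⟨ν, hνφ, fun F => ?_⟩
  refine tendsto_of_seq_tendsto fun u hu => ?_
  have h1 : Tendsto (fun n => pm l hl (u n)) atTop (𝓝 ν) := by
    refine ProbabilityMeasure.tendsto_of_tendsto_charFun fun t => ?_
    rw [hνφ t]
    exact (hchar t).comp hu
  rw [ProbabilityMeasure.tendsto_iff_forall_integral_tendsto] at h1
  refine (h1 F).congr' ?_
  filter_upwards [(tendsto_snd_UW.comp hu).eventually_ge_atTop 1] with n hn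
  exact pm_integral l hl (u n) hn F F.continuous

end Pool.Agent.N903.EL
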